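import Mathlib
import Pool.Agent.Y272.LC.Stm
import Pool.Agent.Y272.LC.Stm3

/-!
# Project LC, piece STAB: stability of preperiodic rays landing at repelling points

The periodic ray is obtained as a uniform limit with a contracting local inverse of the return map;
the preperiodic rays are obtained by pulling back, and the identification with the rays above the
level of the critical point is by uniqueness of liftings.
-/

set_option autoImplicit false
set_option maxHeartbeats 4000000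

namespace Pool.Agent.Y925.LC

open Complex Filter Topology Metric Set
open Pool.Agent.H712R2

/-! ### the maps -/

theorem fc_diff (d n : ℕ) : Differentiable ℂ (fun x : ℂ × ℂ => (fc d x.1)^[n] x.2) := by
  induction n with
  | zero => exact differentiable_snd
  | succ n ih =>
    have h : (fun x : ℂ × ℂ => (fc d x.1)^[n + 1] x.2) =
        fun x : ℂ × ℂ => ((fc d x.1)^[n] x.2) ^ d + x.1 := by
      funext x
      rw [Function.iterate_succ_apply']
      rfl
    rw [h]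
    exact (ih.pow d).add differentiable_fst

theorem fc_cont (d n : ℕ) : Continuous (fun x : ℂ × ℂ => (fc d x.1)^[n] x.2) :=
  (fc_diff d n).continuous

/-- explicit local inverse of `z ^ d + c` -/
theorem loc1 (d : ℕ) (hd : d ≠ 0) (c0 z0 : ℂ) (hz : z0 ≠ 0) :
    ∃ h : ℂ × ℂ → ℂ, AnalyticAt ℂ h (c0, fc d c0 z0) ∧ h (c0, fc d c0 z0) = z0 ∧
      (∀ᶠ x in 𝓝 (c0, fc d c0 z0), fc d x.1 (h x) = x.2) ∧
      (∀ᶠ y in 𝓝 (c0, z0), h (y.1, fc d y.1 y.2) = y.2) := by
  have hdC : (d : ℂ) ≠ 0 := Nat.cast_ne_zero.2 hd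
  have hzd : z0 ^ d ≠ 0 := pow_ne_zero d hz
  have h1 : (fc d c0 z0 - c0) / z0 ^ d = 1 := by
    unfold fc
    rw [add_sub_cancel_right, div_self hzd]
  have hana : AnalyticAt ℂ (fun x : ℂ × ℂ => (x.2 - x.1) / z0 ^ d) (c0, fc d c0 z0) :=
    (analyticAt_snd.sub analyticAt_fst).div analyticAt_const hzd
  refine ⟨fun x => z0 * exp (log ((x.2 - x.1) / z0 ^ d) / d), ?_, ?_, ?_, ?_⟩
  · refine analyticAt_const.mul (AnalyticAt.cexp ?_)
    refine AnalyticAt.div ?_ analyticAt_const hdC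
    refine hana.clog ?_
    change (fc d c0 z0 - c0) / z0 ^ d ∈ slitPlane
    rw [h1]
    exact one_mem_slitPlane
  · change z0 * exp (log ((fc d c0 z0 - c0) / z0 ^ d) / d) = z0
    rw [h1, log_one, zero_div, exp_zero, mul_one]
  · have hne : ∀ᶠ x in 𝓝 (c0, fc d c0 z0), (x.2 - x.1) / z0 ^ d ≠ 0 := by
      apply hana.continuousAt.eventually_ne
      change (fc d c0 z0 - c0) / z0 ^ d ≠ 0
      rw [h1]; exact one_ne_zero
    filter_upwards [hne] with x hx
    change (z0 * exp (log ((x.2 - x.1) / z0 ^ d) / d)) ^ d + x.1 = x.2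
    rw [mul_pow, ← exp_nat_mul, mul_div_cancel₀ _ hdC, exp_log hx, mul_div_cancel₀ _ hzd]
    ring
  · have hq : ContinuousAt (fun y : ℂ × ℂ => (d : ℂ) * log (y.2 / z0)) (c0, z0) := by
      refine continuousAt_const.mul (ContinuousAt.clog ?_ ?_)
      · exact (continuous_snd.div_const z0).continuousAt
      · change z0 / z0 ∈ slitPlane
        rw [div_self hz]
        exact one_mem_slitPlane
    have hq0 : (d : ℂ) * log ((c0, z0).2 / z0) = 0 := by
      change (d : ℂ) * log (z0 / z0) = 0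
      rw [div_self hz, log_one, mul_zero]
    have h2 : ∀ᶠ y in 𝓝 (c0, z0), ((d : ℂ) * log (y.2 / z0)).im ∈ Ioo (-Real.pi) Real.pi := by
      refine (continuous_im.continuousAt.comp hq).eventually_mem (isOpen_Ioo.mem_nhds ?_)
      change ((d : ℂ) * log ((c0, z0).2 / z0)).im ∈ Ioo (-Real.pi) Real.pi
      rw [hq0]
      simpa using Real.pi_pos
    have h4 : ∀ᶠ y in 𝓝 (c0, z0), y.2 ≠ 0 := by
      apply continuousAt_snd.eventually_ne
      exact hz
    filter_upwards [h2, h4] with y hy2 hy4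
    change z0 * exp (log ((y.2 ^ d + y.1 - y.1) / z0 ^ d) / d) = y.2
    rw [add_sub_cancel_right, ← div_pow]
    have h5 : (y.2 / z0) ^ d = exp (d * log (y.2 / z0)) := by
      rw [exp_nat_mul, exp_log (div_ne_zero hy4 hz)]
    rw [h5, log_exp hy2.1 hy2.2.le, mul_div_cancel_left₀ _ hdC, exp_log (div_ne_zero hy4 hz),
      mul_div_cancel₀ _ hz]

/-- local inverse of an iterate -/
theorem locinv (d : ℕ) (hd : d ≠ 0) (c0 : ℂ) (n : ℕ) : ∀ z0 : ℂ,
    (∀ j < n, (fc d c0)^[j] z0 ≠ 0) →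
    ∃ h : ℂ × ℂ → ℂ, AnalyticAt ℂ h (c0, (fc d c0)^[n] z0) ∧ h (c0, (fc d c0)^[n] z0) = z0 ∧
      (∀ᶠ x in 𝓝 (c0, (fc d c0)^[n] z0), (fc d x.1)^[n] (h x) = x.2) ∧
      (∀ᶠ y in 𝓝 (c0, z0), h (y.1, (fc d y.1)^[n] y.2) = y.2) := by
  induction n with
  | zero =>
    intro z0 _
    exact ⟨Prod.snd, analyticAt_snd, rfl, Eventually.of_forall fun x => rfl,
      Eventually.of_forall fun x => rfl⟩
  | succ n ih =>
    intro z0 hz
    obtain ⟨h1, ha1, hb1, hc1, hd1⟩ := ih (fc d c0 z0) (by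
      intro j hj
      have := hz (j + 1) (by omega)
      rwa [Function.iterate_succ_apply] at this)
    obtain ⟨h0, ha0, hb0, hc0, hd0⟩ := loc1 d hd c0 z0 (hz 0 (by omega))
    rw [Function.iterate_succ_apply]
    have hana : AnalyticAt ℂ (fun x : ℂ × ℂ => (x.1, h1 x)) (c0, (fc d c0)^[n] (fc d c0 z0)) :=
      analyticAt_fst.prod ha1
    have ht : Tendsto (fun x : ℂ × ℂ => (x.1, h1 x)) (𝓝 (c0, (fc d c0)^[n] (fc d c0 z0)))
        (𝓝 (c0, fc d c0 z0)) := by
      have := hana.continuousAt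
      rw [ContinuousAt, hb1] at this
      exact this
    refine ⟨fun x => h0 (x.1, h1 x), ?_, ?_, ?_, ?_⟩
    · refine AnalyticAt.fun_comp (g := h0) (f := fun x : ℂ × ℂ => (x.1, h1 x)) ?_ hana
      change AnalyticAt ℂ h0 (c0, h1 (c0, (fc d c0)^[n] (fc d c0 z0)))
      rw [hb1]
      exact ha0
    · change h0 (c0, h1 (c0, (fc d c0)^[n] (fc d c0 z0))) = z0
      rw [hb1, hb0]
    · filter_upwards [hc1, ht.eventually hc0] with x hx1 hx2
      change (fc d x.1)^[n] (fc d x.1 (h0 (x.1, h1 x))) = x.2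
      have hx3 : fc d x.1 (h0 (x.1, h1 x)) = h1 x := hx2
      rw [hx3, hx1]
    · have ht2 : Tendsto (fun y : ℂ × ℂ => (y.1, fc d y.1 y.2)) (𝓝 (c0, z0))
          (𝓝 (c0, fc d c0 z0)) := by
        have hcc : Continuous (fun y : ℂ × ℂ => (y.1, fc d y.1 y.2)) :=
          continuous_fst.prodMk (fc_cont d 1)
        exact hcc.tendsto (c0, z0)
      filter_upwards [hd0, ht2.eventually hd1] with y hy1 hy2
      change h0 (y.1, h1 (y.1, (fc d y.1)^[n] (fc d y.1 y.2))) = y.2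
      have hy3 : h1 (y.1, (fc d y.1)^[n] (fc d y.1 y.2)) = fc d y.1 y.2 := hy2
      rw [hy3, hy1]

/-- uniqueness of liftings -/
theorem uniq (d : ℕ) (hd : 1 ≤ d) (G : ℂ → ℂ → ℝ) (hGf : ∀ c z, G c (fc d c z) = d * G c z)
    (hG0 : ∀ c z, 0 ≤ G c z) (c : ℂ) (S : Set ℝ) (hS : IsPreconnected S) (u1 : ℝ) (hu1 : u1 ∈ S)
    (n : ℕ) : ∀ x y : ℝ → ℂ, ContinuousOn x S → ContinuousOn y S →
    (∀ u ∈ S, G c 0 < G c (x u)) → (∀ u ∈ S, G c 0 < G c (y u)) →
    (∀ u ∈ S, (fc d c)^[n] (x u) = (fc d c)^[n] (y u)) → x u1 = y u1 →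
    ∀ u ∈ S, x u = y u := by
  have hfcc : Continuous (fc d c) := by
    unfold fc
    fun_prop
  induction n with
  | zero => intro x y _ _ _ _ h _; exact h
  | succ n ih =>
    intro x y hx hy hxG hyG h h1
    have hup : ∀ z, G c 0 < G c z → G c 0 < G c (fc d c z) := by
      intro z hz
      rw [hGf]
      have h0 := hG0 c 0
      have hd' : (1 : ℝ) ≤ d := by exact_mod_cast hd
      nlinarith
    have h2 := ih (fun u => fc d c (x u)) (fun u => fc d c (y u)) (hfcc.comp_continuousOn hx)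
      (hfcc.comp_continuousOn hy) (fun u hu => hup _ (hxG u hu)) (fun u hu => hup _ (hyG u hu))
      (fun u hu => by
        have := h u hu
        rwa [Function.iterate_succ_apply, Function.iterate_succ_apply] at this)
      (by rw [h1])
    have hy0 : ∀ u ∈ S, y u ≠ 0 := by
      intro u hu h0
      have := hyG u hu
      rw [h0] at this
      exact lt_irrefl _ this
    have hfin : ({w : ℂ | w ^ d = 1}).Finite := by
      have hd0 : 0 < d := hd
      have h3 : ({w : ℂ | w ^ d = 1}) ⊆ ((Polynomial.nthRoots d (1 : ℂ)).toFinset : Set ℂ) := by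
        intro w hw
        rw [Finset.mem_coe, Multiset.mem_toFinset, Polynomial.mem_nthRoots hd0]
        exact hw
      exact (Finset.finite_toSet _).subset h3
    have hmaps : MapsTo (fun u => x u / y u) S {w : ℂ | w ^ d = 1} := by
      intro u hu
      have h4 : (x u) ^ d + c = (y u) ^ d + c := h2 u hu
      have h5 : (x u) ^ d = (y u) ^ d := add_right_cancel h4
      change (x u / y u) ^ d = 1
      rw [div_pow, h5, div_self (pow_ne_zero _ (hy0 u hu))]
    intro u hu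
    have h6 := hS.constant_of_mapsTo hfin.isDiscrete (hx.div hy hy0) hmaps hu hu1
    have h7 : x u / y u = x u1 / y u1 := h6
    rw [h1, div_self (hy0 u1 hu1), div_eq_one_iff_eq (hy0 u hu)] at h7
    exact h7

theorem iter_green (d : ℕ) (G : ℂ → ℂ → ℝ) (hGf : ∀ c z, G c (fc d c z) = d * G c z) (c : ℂ)
    (n : ℕ) (z : ℂ) : G c ((fc d c)^[n] z) = (d : ℝ) ^ n * G c z := by
  induction n with
  | zero => simp
  | succ n ih =>
    rw [Function.iterate_succ_apply', hGf, ih, pow_succ]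
    ring

/-- the critical point is not in the orbit of a repelling periodic point -/
theorem orbit_ne (d : ℕ) (hd : 2 ≤ d) (c0 p : ℂ) (N : ℕ)
    (hmul : 1 < ‖deriv ((fc d c0)^[N]) p‖) : ∀ j < N, (fc d c0)^[j] p ≠ 0 := by
  intro j hj h0
  have hdf : ∀ (n : ℕ) (z : ℂ), DifferentiableAt ℂ ((fc d c0)^[n]) z := by
    intro n z
    have h1 : Differentiable ℂ (fun z : ℂ => (c0, z)) := by fun_prop
    exact ((fc_diff d n).comp h1) z
  have hf0 : HasDerivAt (fc d c0) 0 ((fc d c0)^[j] p) := by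
    rw [h0]
    have h1 : HasDerivAt (fun z : ℂ => z ^ d + c0) (d * 0 ^ (d - 1)) 0 :=
      (hasDerivAt_pow d (0 : ℂ)).add_const c0
    rw [zero_pow (by omega), mul_zero] at h1
    exact h1
  have h2 := (hdf (N - 1 - j) (fc d c0 ((fc d c0)^[j] p))).hasDerivAt.comp p
    (hf0.comp p (hdf j p).hasDerivAt)
  have h3 : (fc d c0)^[N - 1 - j] ∘ (fc d c0 ∘ (fc d c0)^[j]) = (fc d c0)^[N] := by
    funext z
    simp only [Function.comp_apply]
    rw [← Function.iterate_succ_apply' (fc d c0) j z, ← Function.iterate_add_apply]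
    congr 2
    omega
  rw [h3, zero_mul, mul_zero] at h2
  rw [h2.deriv, norm_zero] at hmul
  linarith

/-- a contracting local inverse at a repelling periodic point -/
theorem contr (d : ℕ) (hd : 2 ≤ d) (c0 p : ℂ) (N : ℕ) (hFp : (fc d c0)^[N] p = p)
    (hmul : 1 < ‖deriv ((fc d c0)^[N]) p‖) :
    ∃ (h : ℂ × ℂ → ℂ) (lam r ε : ℝ), 0 ≤ lam ∧ lam < 1 ∧ 0 < r ∧ 0 < ε ∧
      (∀ c ∈ ball c0 ε, ∀ w ∈ closedBall p r, DifferentiableAt ℂ h (c, w)) ∧
      (∀ c ∈ ball c0 ε, ∀ w ∈ closedBall p r, (fc d c)^[N] (h (c, w)) = w) ∧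
      (∀ c ∈ ball c0 ε, ∀ z ∈ closedBall p r, h (c, (fc d c)^[N] z) = z) ∧
      (∀ c ∈ ball c0 ε, ∀ w ∈ closedBall p r, ∀ w' ∈ closedBall p r,
        ‖h (c, w) - h (c, w')‖ ≤ lam * ‖w - w'‖) ∧
      (∀ c ∈ ball c0 ε, ∀ w ∈ closedBall p r, h (c, w) ∈ ball p r) := by
  obtain ⟨h, ha, hb, hA, hB⟩ := locinv d (by omega) c0 N p (orbit_ne d hd c0 p N hmul)
  rw [hFp] at ha hb hA
  set L := fderiv ℂ h (c0, p) with hL
  have hs : HasStrictFDerivAt h L (c0, p) := ha.hasStrictFDerivAt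
  set F' := deriv ((fc d c0)^[N]) p with hF'
  set a : ℂ := L (0, 1) with hadef
  have hFd : HasDerivAt ((fc d c0)^[N]) F' p := by
    have h1 : Differentiable ℂ (fun z : ℂ => (c0, z)) := by fun_prop
    exact (((fc_diff d N).comp h1) p).hasDerivAt
  have hprod : F' * a = 1 := by
    have e1 : HasDerivAt (fun z => (c0, (fc d c0)^[N] z)) ((0 : ℂ), F') p :=
      (hasDerivAt_const p c0).prodMk hFd
    have e2 : HasFDerivAt h L ((fun z => (c0, (fc d c0)^[N] z)) p) := by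
      change HasFDerivAt h L (c0, (fc d c0)^[N] p)
      rw [hFp]
      exact hs.hasFDerivAt
    have e3 := e2.comp_hasDerivAt p e1
    have e4 : (h ∘ fun z => (c0, (fc d c0)^[N] z)) =ᶠ[𝓝 p] id := by
      have ht : Tendsto (fun z : ℂ => (c0, z)) (𝓝 p) (𝓝 (c0, p)) :=
        (Continuous.prodMk_right c0).tendsto p
      filter_upwards [ht.eventually hB] with z hz
      exact hz
    have e5 : HasDerivAt (h ∘ fun z => (c0, (fc d c0)^[N] z)) 1 p :=
      (hasDerivAt_id p).congr_of_eventuallyEq e4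
    have e6 := e3.unique e5
    have e7 : ((0 : ℂ), F') = F' • ((0 : ℂ), (1 : ℂ)) := by
      ext <;> simp
    rw [e7, map_smul, smul_eq_mul] at e6
    exact e6
  have ha1 : ‖a‖ < 1 := by
    have h1 : ‖F'‖ * ‖a‖ = 1 := by rw [← norm_mul, hprod, norm_one]
    by_contra hge
    push Not at hge
    nlinarith [norm_nonneg a]
  have hη : 0 < (1 - ‖a‖) / 2 := by linarith
  obtain ⟨s, hs1, hs2⟩ := hs.approximates_deriv_on_nhds (c := ⟨(1 - ‖a‖) / 2, hη.le⟩)
    (Or.inr (by exact_mod_cast hη))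
  have hU : s ∩ {x | DifferentiableAt ℂ h x} ∩ {x | (fc d x.1)^[N] (h x) = x.2} ∩
      {y | h (y.1, (fc d y.1)^[N] y.2) = y.2} ∈ 𝓝 (c0, p) := by
    refine inter_mem (inter_mem (inter_mem hs1 ?_) hA) hB
    filter_upwards [ha.eventually_analyticAt] with x hx
    exact hx.differentiableAt
  obtain ⟨ρ, hρ, hρU⟩ := Metric.mem_nhds_iff.1 hU
  set lam := (1 + ‖a‖) / 2 with hlam
  have hlam0 : 0 ≤ lam := by positivity
  have hlam1 : lam < 1 := by rw [hlam]; linarith
  set r := ρ / 2 with hr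
  have hr0 : 0 < r := by positivity
  have hcont : ContinuousAt (fun c => h (c, p)) c0 := by
    have h1 : ContinuousAt (fun c : ℂ => (c, p)) c0 := by fun_prop
    exact ContinuousAt.comp (f := fun c : ℂ => (c, p)) ha.continuousAt h1
  have hev : ∀ᶠ c in 𝓝 c0, h (c, p) ∈ ball p ((1 - lam) * r) := by
    apply hcont.eventually_mem
    apply isOpen_ball.mem_nhds
    rw [hb]
    exact mem_ball_self (mul_pos (by linarith) hr0)
  obtain ⟨ε0, hε0, hε1⟩ := Metric.eventually_nhds_iff_ball.1 hev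
  have hmem : ∀ c ∈ ball c0 (min ρ ε0), ∀ w ∈ closedBall p r, (c, w) ∈ ball (c0, p) ρ := by
    intro c hc w hw
    rw [mem_ball, Prod.dist_eq]
    apply max_lt
    · exact (mem_ball.1 hc).trans_le (min_le_left _ _)
    · have := mem_closedBall.1 hw
      change dist w p < ρ
      linarith
  have hlip : ∀ c ∈ ball c0 (min ρ ε0), ∀ w ∈ closedBall p r, ∀ w' ∈ closedBall p r,
        ‖h (c, w) - h (c, w')‖ ≤ lam * ‖w - w'‖ := by
    intro c hc w hw w' hw'
    have h1 := hs2 _ (hρU (hmem c hc w hw)).1.1.1 _ (hρU (hmem c hc w' hw')).1.1.1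
    have h2 : ((c, w) : ℂ × ℂ) - (c, w') = (w - w') • ((0 : ℂ), (1 : ℂ)) := by
      ext <;> simp
    have h3 : ‖((c, w) : ℂ × ℂ) - (c, w')‖ = ‖w - w'‖ := by
      rw [Prod.mk_sub_mk, sub_self, Prod.norm_def]
      simp
    have h4 : L (((c, w) : ℂ × ℂ) - (c, w')) = (w - w') * a := by
      rw [h2, map_smul, smul_eq_mul]
    rw [h3, h4] at h1
    have h5 : ‖h (c, w) - h (c, w')‖ ≤ ‖h (c, w) - h (c, w') - (w - w') * a‖ +
        ‖(w - w') * a‖ := by
      have := norm_add_le (h (c, w) - h (c, w') - (w - w') * a) ((w - w') * a)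
      rwa [sub_add_cancel] at this
    rw [norm_mul] at h5
    have h6 : ‖h (c, w) - h (c, w') - (w - w') * a‖ ≤ (1 - ‖a‖) / 2 * ‖w - w'‖ := h1
    rw [hlam]
    linarith
  refine ⟨h, lam, r, min ρ ε0, hlam0, hlam1, hr0, lt_min hρ hε0, ?_, ?_, ?_, hlip, ?_⟩
  · intro c hc w hw
    exact (hρU (hmem c hc w hw)).1.1.2
  · intro c hc w hw
    exact (hρU (hmem c hc w hw)).1.2
  · intro c hc w hw
    exact (hρU (hmem c hc w hw)).2
  · intro c hc w hw
    have h1 := hlip c hc w hw p (mem_closedBall_self hr0.le)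
    have h2 := hε1 c (ball_subset_ball (min_le_right _ _) hc)
    rw [mem_ball, dist_eq_norm] at h2 ⊢
    have h3 : ‖h (c, w) - p‖ ≤ ‖h (c, w) - h (c, p)‖ + ‖h (c, p) - p‖ := by
      have := norm_add_le (h (c, w) - h (c, p)) (h (c, p) - p)
      rwa [sub_add_sub_cancel] at this
    have h4 : ‖w - p‖ ≤ r := by
      have := mem_closedBall.1 hw
      rwa [dist_eq_norm] at this
    nlinarith

/-- the approximations of the family of periodic rays -/
noncomputable def XX (Ψ : ℂ → ℝ → ℂ) (h : ℂ × ℂ → ℂ) (s2 s3 D : ℝ) : ℕ → ℂ → ℝ → ℂ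
  | 0, c, s => Ψ c (max s s3)
  | n + 1, c, s => if s < s2 then h (c, XX Ψ h s2 s3 D n c (D * s)) else Ψ c s

theorem XX_zero (Ψ : ℂ → ℝ → ℂ) (h : ℂ × ℂ → ℂ) (s2 s3 D : ℝ) (c : ℂ) (s : ℝ) :
    XX Ψ h s2 s3 D 0 c s = Ψ c (max s s3) := by
  rw [XX]

theorem XX_lt (Ψ : ℂ → ℝ → ℂ) (h : ℂ × ℂ → ℂ) (s2 s3 D : ℝ) (n : ℕ) (c : ℂ) (s : ℝ)
    (hs : s < s2) :
    XX Ψ h s2 s3 D (n + 1) c s = h (c, XX Ψ h s2 s3 D n c (D * s)) := by
  rw [XX, if_pos hs]

theorem XX_ge (Ψ : ℂ → ℝ → ℂ) (h : ℂ × ℂ → ℂ) (s2 s3 D : ℝ) (n : ℕ) (c : ℂ) (s : ℝ)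
    (hs : s2 ≤ s) :
    XX Ψ h s2 s3 D (n + 1) c s = Ψ c s := by
  rw [XX, if_neg (not_lt.2 hs)]

/-- a compact piece of a ray stays in a ball for the nearby parameters -/
theorem tube (G : ℂ → ℂ → ℝ) (hGc : Continuous (fun q : ℂ × ℂ => G q.1 q.2))
    (Ψ : ℂ → ℝ → ℂ)
    (hΨc : ContinuousOn (fun q : ℂ × ℝ => Ψ q.1 q.2) {q : ℂ × ℝ | G q.1 0 < q.2})
    (c0 p : ℂ) (r a b : ℝ) (hG : G c0 0 < a) (hab : ∀ s ∈ Icc a b, Ψ c0 s ∈ ball p r) :
    ∃ ε : ℝ, 0 < ε ∧ ∀ c ∈ ball c0 ε, ∀ s ∈ Icc a b, G c 0 < s ∧ Ψ c s ∈ ball p r := by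
  have hopen : IsOpen {q : ℂ × ℝ | G q.1 0 < q.2} := by
    apply isOpen_lt _ continuous_snd
    exact hGc.comp (continuous_fst.prodMk continuous_const)
  have hO := hΨc.isOpen_inter_preimage hopen (isOpen_ball : IsOpen (ball p r))
  obtain ⟨u, v, hu, hv, hcu, hv2, huv⟩ := generalized_tube_lemma (isCompact_singleton (x := c0))
    (isCompact_Icc (a := a) (b := b)) hO (by
      rintro ⟨c, s⟩ ⟨hc, hs⟩
      have hc' : c = c0 := hc
      subst hc'
      exact ⟨hG.trans_le hs.1, hab s hs⟩)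
  obtain ⟨ε, hε, hεu⟩ := Metric.isOpen_iff.1 hu c0 (hcu rfl)
  refine ⟨ε, hε, fun c hc s hs => ?_⟩
  have := huv (mk_mem_prod (hεu hc) (hv2 hs))
  exact this

/-- the periodic part -/
theorem per_part (d : ℕ) (hd : 2 ≤ d) (G : ℂ → ℂ → ℝ)
    (hGc : Continuous (fun q : ℂ × ℂ => G q.1 q.2))
    (hGf : ∀ c z, G c (fc d c z) = d * G c z) (hG0 : ∀ c z, 0 ≤ G c z)
    (Ψ : ℂ → ℝ → ℂ)
    (hΨc : ContinuousOn (fun q : ℂ × ℝ => Ψ q.1 q.2) {q : ℂ × ℝ | G q.1 0 < q.2})
    (hΨG : ∀ c s, G c 0 < s → G c (Ψ c s) = s) (N : ℕ) (hN : 1 ≤ N)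
    (hΨF : ∀ c s, G c 0 < s → (fc d c)^[N] (Ψ c s) = Ψ c ((d : ℝ) ^ N * s)) (c0 p : ℂ)
    (hc0 : G c0 0 = 0) (hp : Tendsto (fun s => Ψ c0 s) (𝓝[>] 0) (𝓝 p))
    (hFp : (fc d c0)^[N] p = p) (hmul : 1 < ‖deriv ((fc d c0)^[N]) p‖) :
    ∃ (ε : ℝ) (X : ℂ → ℝ → ℂ), 0 < ε ∧
      ContinuousOn (fun q : ℂ × ℝ => X q.1 q.2) (ball c0 ε ×ˢ Ici 0) ∧
      (∀ c ∈ ball c0 ε, ∀ s, G c 0 < s → X c s = Ψ c s) ∧
      (∀ c ∈ ball c0 ε, ∀ s, 0 ≤ s → G c (X c s) = s) ∧
      DifferentiableOn ℂ (fun c => X c 0) (ball c0 ε) ∧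
      (∀ c ∈ ball c0 ε, ∀ s, 0 ≤ s → (fc d c)^[N] (X c s) = X c ((d : ℝ) ^ N * s)) ∧
      X c0 0 = p ∧ ∃ r : ℝ, 0 < r ∧ ∀ c ∈ ball c0 ε, ∀ z ∈ ball p r,
        (fc d c)^[N] z = z → z = X c 0 := by
  obtain ⟨h, lam, r, ε1, hlam0, hlam1, hr, hε1, hdiff, hA, hB, hlip, hmaps⟩ :=
    contr d hd c0 p N hFp hmul
  set D : ℝ := (d : ℝ) ^ N with hD
  have hdR : (2 : ℝ) ≤ d := by exact_mod_cast hd
  have hD2 : 2 ≤ D := by
    calc (2 : ℝ) ≤ d := hdR
      _ = (d : ℝ) ^ 1 := (pow_one _).symm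
      _ ≤ (d : ℝ) ^ N := pow_le_pow_right₀ (by linarith) hN
  have hGF : ∀ c z, G c ((fc d c)^[N] z) = D * G c z := fun c z => iter_green d G hGf c N z
  -- the levels
  have hs1 : ∃ s1 : ℝ, 0 < s1 ∧ ∀ s, 0 < s → s ≤ s1 → Ψ c0 s ∈ ball p r := by
    have h1 := hp.eventually_mem (isOpen_ball.mem_nhds (mem_ball_self hr))
    rw [eventually_nhdsWithin_iff] at h1
    obtain ⟨δ, hδ, hδ2⟩ := Metric.eventually_nhds_iff_ball.1 h1
    refine ⟨δ / 2, by positivity, fun s hs hs2 => hδ2 s ?_ hs⟩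
    rw [mem_ball, Real.dist_eq, sub_zero, abs_of_pos hs]
    linarith
  obtain ⟨s1, hs1, hs1b⟩ := hs1
  set s2 := s1 / D with hs2
  set s3 := s2 / 2 with hs3
  have hs20 : 0 < s2 := by positivity
  have hs30 : 0 < s3 := by positivity
  have hs32 : s3 < s2 := by rw [hs3]; linarith
  have hs21 : D * s2 = s1 := by rw [hs2]; field_simp
  have hs2le : s2 ≤ s1 := by nlinarith
  obtain ⟨ε2, hε2, hball⟩ := tube G hGc Ψ hΨc c0 p r s3 s1 (by rw [hc0]; exact hs30)
    (fun s hs => hs1b s (hs30.trans_le hs.1) hs.2)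
  set ε := min ε1 ε2 with hε
  have hεpos : 0 < ε := lt_min hε1 hε2
  have hB1 : ∀ c ∈ ball c0 ε, c ∈ ball c0 ε1 := fun c hc => ball_subset_ball (min_le_left _ _) hc
  have hB2 : ∀ c ∈ ball c0 ε, c ∈ ball c0 ε2 := fun c hc => ball_subset_ball (min_le_right _ _) hc
  have hg3 : ∀ c ∈ ball c0 ε, G c 0 < s3 := fun c hc =>
    (hball c (hB2 c hc) s3 ⟨le_rfl, by linarith⟩).1
  have hΨball : ∀ c ∈ ball c0 ε, ∀ s ∈ Icc s3 s1, Ψ c s ∈ closedBall p r := fun c hc s hs =>
    ball_subset_closedBall (hball c (hB2 c hc) s hs).2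
  have hopenΨ : IsOpen {q : ℂ × ℝ | G q.1 0 < q.2} := by
    apply isOpen_lt _ continuous_snd
    exact hGc.comp (continuous_fst.prodMk continuous_const)
  -- (a)
  have ha : ∀ n, ∀ c ∈ ball c0 ε, ∀ s, s3 < s → XX Ψ h s2 s3 D n c s = Ψ c s := by
    intro n
    induction n with
    | zero =>
      intro c hc s hs
      rw [XX_zero, max_eq_left hs.le]
    | succ n ih =>
      intro c hc s hs
      rcases lt_or_ge s s2 with hss | hss
      · rw [XX_lt _ _ _ _ _ _ _ _ hss, ih c hc (D * s) (by nlinarith),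
          ← hΨF c s ((hg3 c hc).trans hs), hB c (hB1 c hc)]
        exact hΨball c hc s ⟨hs.le, by linarith⟩
      · rw [XX_ge _ _ _ _ _ _ _ _ hss]
  -- (b)
  have hb : ∀ n, ∀ c ∈ ball c0 ε, ∀ s, 0 ≤ s → s ≤ s1 → XX Ψ h s2 s3 D n c s ∈ closedBall p r := by
    intro n
    induction n with
    | zero =>
      intro c hc s hs hs'
      rw [XX_zero]
      exact hΨball c hc _ ⟨le_max_right _ _, max_le hs' (by linarith)⟩
    | succ n ih =>
      intro c hc s hs hs'
      rcases lt_or_ge s s2 with hss | hss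
      · rw [XX_lt _ _ _ _ _ _ _ _ hss]
        exact ball_subset_closedBall (hmaps c (hB1 c hc) _ (ih c hc (D * s) (by positivity)
          (by nlinarith)))
      · rw [XX_ge _ _ _ _ _ _ _ _ hss]
        exact hΨball c hc _ ⟨by linarith, hs'⟩
  -- (c)
  have hcont : ∀ n, ContinuousOn (fun q : ℂ × ℝ => XX Ψ h s2 s3 D n q.1 q.2)
      (ball c0 ε ×ˢ Ici 0) := by
    intro n
    induction n with
    | zero =>
      have h1 : ContinuousOn (fun q : ℂ × ℝ => (q.1, max q.2 s3)) (ball c0 ε ×ˢ Ici 0) := by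
        apply Continuous.continuousOn
        fun_prop
      refine (hΨc.comp h1 ?_).congr ?_
      · rintro ⟨c, s⟩ ⟨hc, hs⟩
        exact (hg3 c hc).trans_le (le_max_right _ _)
      · rintro ⟨c, s⟩ _
        exact XX_zero _ _ _ _ _ _ _
    | succ n ih =>
      rintro ⟨c, s⟩ ⟨hc, hs⟩
      have hc' : c ∈ ball c0 ε := hc
      have hs' : 0 ≤ s := hs
      rcases lt_or_ge s s2 with hss | hss
      · have h1 : ContinuousWithinAt (fun q : ℂ × ℝ => (q.1, D * q.2)) (ball c0 ε ×ˢ Ici 0)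
            (c, s) := by
          apply Continuous.continuousWithinAt
          fun_prop
        have hmem : ((c, D * s) : ℂ × ℝ) ∈ (ball c0 ε ×ˢ Ici 0 : Set (ℂ × ℝ)) :=
          ⟨hc, mem_Ici.2 (by positivity)⟩
        have h2 : ContinuousWithinAt (fun q : ℂ × ℝ => XX Ψ h s2 s3 D n q.1 (D * q.2))
            (ball c0 ε ×ˢ Ici 0) (c, s) := by
          refine ContinuousWithinAt.comp (t := ball c0 ε ×ˢ Ici 0)
            (g := fun q : ℂ × ℝ => XX Ψ h s2 s3 D n q.1 q.2)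
            (f := fun q : ℂ × ℝ => (q.1, D * q.2)) (ih _ hmem) h1 ?_
          rintro ⟨c', s'⟩ ⟨hc1, hs1⟩
          exact ⟨hc1, mem_Ici.2 (mul_nonneg (by linarith) (mem_Ici.1 hs1))⟩
        have h3 : ContinuousWithinAt
            (fun q : ℂ × ℝ => (q.1, XX Ψ h s2 s3 D n q.1 (D * q.2)))
            (ball c0 ε ×ˢ Ici 0) (c, s) := continuousWithinAt_fst.prodMk h2
        have h4 : ContinuousAt h (c, XX Ψ h s2 s3 D n c (D * s)) :=
          (hdiff c (hB1 c hc') _ (hb n c hc' (D * s) (by positivity) (by nlinarith))).continuousAt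
        have h5 : ContinuousWithinAt
            (fun q : ℂ × ℝ => h (q.1, XX Ψ h s2 s3 D n q.1 (D * q.2)))
            (ball c0 ε ×ˢ Ici 0) (c, s) :=
          ContinuousAt.comp_continuousWithinAt (g := h)
            (f := fun q : ℂ × ℝ => (q.1, XX Ψ h s2 s3 D n q.1 (D * q.2))) h4 h3
        refine h5.congr_of_eventuallyEq ?_ (XX_lt _ _ _ _ _ _ _ _ hss)
        have h6 : {q : ℂ × ℝ | q.2 < s2} ∈ 𝓝 (c, s) :=
          (isOpen_lt continuous_snd continuous_const).mem_nhds hss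
        filter_upwards [mem_nhdsWithin_of_mem_nhds h6] with q hq
        exact XX_lt _ _ _ _ _ _ _ _ hq
      · have hss3 : s3 < s := by linarith
        have h1 : ContinuousAt (fun q : ℂ × ℝ => Ψ q.1 q.2) (c, s) :=
          hΨc.continuousAt (hopenΨ.mem_nhds ((hg3 c hc').trans hss3))
        refine h1.continuousWithinAt.congr_of_eventuallyEq ?_ (ha _ c hc' s hss3)
        have h6 : {q : ℂ × ℝ | s3 < q.2} ∈ 𝓝 (c, s) :=
          (isOpen_lt continuous_const continuous_snd).mem_nhds hss3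
        filter_upwards [mem_nhdsWithin_of_mem_nhds h6, self_mem_nhdsWithin] with q hq hq2
        exact ha _ q.1 hq2.1 q.2 hq
  -- (d)
  have hdist : ∀ n, ∀ c ∈ ball c0 ε, ∀ s, 0 ≤ s →
      dist (XX Ψ h s2 s3 D n c s) (XX Ψ h s2 s3 D (n + 1) c s) ≤ 2 * r * lam ^ n := by
    intro n
    induction n with
    | zero =>
      intro c hc s hs
      rcases lt_or_ge s3 s with hss | hss
      · rw [ha _ c hc s hss, ha _ c hc s hss, dist_self]
        positivity
      · have h1 := hb 0 c hc s hs (by linarith)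
        have h2 := hb 1 c hc s hs (by linarith)
        have h3 := dist_triangle_right (XX Ψ h s2 s3 D 0 c s) (XX Ψ h s2 s3 D 1 c s) p
        rw [mem_closedBall] at h1 h2
        rw [pow_zero, mul_one]
        change dist (XX Ψ h s2 s3 D 0 c s) (XX Ψ h s2 s3 D 1 c s) ≤ 2 * r
        linarith
    | succ n ih =>
      intro c hc s hs
      rcases lt_or_ge s3 s with hss | hss
      · rw [ha _ c hc s hss, ha _ c hc s hss, dist_self]
        positivity
      · have hss2 : s < s2 := by linarith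
        have hDs : D * s ≤ s1 := by nlinarith
        have hDs0 : 0 ≤ D * s := by positivity
        rw [XX_lt _ _ _ _ _ _ _ _ hss2, XX_lt _ _ _ _ _ _ _ _ hss2, dist_eq_norm]
        refine (hlip c (hB1 c hc) _ (hb n c hc _ hDs0 hDs) _ (hb (n + 1) c hc _ hDs0 hDs)).trans ?_
        have h1 := ih c hc (D * s) hDs0
        rw [dist_eq_norm] at h1
        calc lam * ‖XX Ψ h s2 s3 D n c (D * s) - XX Ψ h s2 s3 D (n + 1) c (D * s)‖
            ≤ lam * (2 * r * lam ^ n) := mul_le_mul_of_nonneg_left h1 hlam0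
          _ = 2 * r * lam ^ (n + 1) := by rw [pow_succ]; ring
  -- the limit
  set X : ℂ → ℝ → ℂ := fun c s => limUnder atTop (fun n => XX Ψ h s2 s3 D n c s) with hX
  have hlim : ∀ c ∈ ball c0 ε, ∀ s, 0 ≤ s →
      Tendsto (fun n => XX Ψ h s2 s3 D n c s) atTop (𝓝 (X c s)) := by
    intro c hc s hs
    exact (cauchySeq_of_le_geometric lam (2 * r) hlam1 (fun n => hdist n c hc s hs)).tendsto_limUnder
  have hbd : ∀ n, ∀ c ∈ ball c0 ε, ∀ s, 0 ≤ s →
      dist (XX Ψ h s2 s3 D n c s) (X c s) ≤ 2 * r * lam ^ n / (1 - lam) := by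
    intro n c hc s hs
    exact dist_le_of_le_geometric_of_tendsto lam (2 * r) hlam1 (fun n => hdist n c hc s hs)
      (hlim c hc s hs) n
  have hpow0 : Tendsto (fun n : ℕ => 2 * r * lam ^ n / (1 - lam)) atTop (𝓝 0) := by
    have h1 := ((tendsto_pow_atTop_nhds_zero_of_lt_one hlam0 hlam1).const_mul (2 * r)).div_const
      (1 - lam)
    rwa [mul_zero, zero_div] at h1
  -- (f)
  have hXcont : ContinuousOn (fun q : ℂ × ℝ => X q.1 q.2) (ball c0 ε ×ˢ Ici 0) := by
    have hu : TendstoUniformlyOn (fun n (q : ℂ × ℝ) => XX Ψ h s2 s3 D n q.1 q.2)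
        (fun q : ℂ × ℝ => X q.1 q.2) atTop (ball c0 ε ×ˢ Ici 0) := by
      rw [Metric.tendstoUniformlyOn_iff]
      intro δ hδ
      filter_upwards [hpow0.eventually_lt_const hδ] with n hn
      rintro ⟨c, s⟩ ⟨hc, hs⟩
      rw [dist_comm]
      exact (hbd n c hc s hs).trans_lt hn
    exact hu.continuousOn (Frequently.of_forall hcont)
  -- (g)
  have hXeq3 : ∀ c ∈ ball c0 ε, ∀ s, s3 < s → X c s = Ψ c s := by
    intro c hc s hs
    refine tendsto_nhds_unique (hlim c hc s (by linarith)) ?_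
    refine tendsto_const_nhds.congr fun n => ?_
    exact (ha n c hc s hs).symm
  -- (h)
  have hXball : ∀ c ∈ ball c0 ε, ∀ s, 0 ≤ s → s ≤ s1 → X c s ∈ closedBall p r := by
    intro c hc s hs hs'
    exact isClosed_closedBall.mem_of_tendsto (hlim c hc s hs)
      (Eventually.of_forall fun n => hb n c hc s hs hs')
  -- (i)
  have hXh : ∀ c ∈ ball c0 ε, ∀ s, 0 ≤ s → s < s2 → X c s = h (c, X c (D * s)) := by
    intro c hc s hs hss
    have hDs : D * s ≤ s1 := by nlinarith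
    have hDs0 : 0 ≤ D * s := by positivity
    have h1 := (tendsto_add_atTop_iff_nat 1).2 (hlim c hc s hs)
    have h2 : ContinuousAt h (c, X c (D * s)) :=
      (hdiff c (hB1 c hc) _ (hXball c hc _ hDs0 hDs)).continuousAt
    have h3 : Tendsto (fun n => ((c, XX Ψ h s2 s3 D n c (D * s)) : ℂ × ℂ)) atTop
        (𝓝 (c, X c (D * s))) := by
      rw [nhds_prod_eq]
      exact tendsto_const_nhds.prodMk (hlim c hc (D * s) hDs0)
    have h4 := h2.tendsto.comp h3
    refine tendsto_nhds_unique h1 (h4.congr fun n => ?_)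
    exact (XX_lt _ _ _ _ _ _ _ _ hss).symm
  -- (j)
  have hXF : ∀ c ∈ ball c0 ε, ∀ s, 0 ≤ s → (fc d c)^[N] (X c s) = X c (D * s) := by
    intro c hc s hs
    rcases lt_or_ge s s2 with hss | hss
    · rw [hXh c hc s hs hss, hA c (hB1 c hc)]
      exact hXball c hc _ (by positivity) (by nlinarith)
    · rw [hXeq3 c hc s (by linarith), hXeq3 c hc (D * s) (by nlinarith),
        hΨF c s ((hg3 c hc).trans (by linarith))]
  -- (k)
  have hXG : ∀ c ∈ ball c0 ε, ∀ s, 0 ≤ s → G c (X c s) = s := by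
    intro c hc
    have h1 : ∀ m : ℕ, ∀ s, 0 ≤ s → s3 < D ^ m * s → G c (X c s) = s := by
      intro m
      induction m with
      | zero =>
        intro s hs hs'
        rw [pow_zero, one_mul] at hs'
        rw [hXeq3 c hc s hs', hΨG c s ((hg3 c hc).trans hs')]
      | succ m ih =>
        intro s hs hs'
        have h2 := ih (D * s) (by positivity) (by
          have : D ^ m * (D * s) = D ^ (m + 1) * s := by rw [pow_succ]; ring
          rw [this]; exact hs')
        rw [← hXF c hc s hs, hGF] at h2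
        exact mul_left_cancel₀ (by linarith : D ≠ 0) h2
    intro s hs
    rcases hs.eq_or_lt with h0 | h0
    · rw [← h0]
      have h2 := hXF c hc 0 le_rfl
      rw [mul_zero] at h2
      have h3 := hGF c (X c 0)
      rw [h2] at h3
      nlinarith
    · obtain ⟨m, hm⟩ := pow_unbounded_of_one_lt (s3 / s) (by linarith : 1 < D)
      refine h1 m s hs ?_
      rwa [div_lt_iff₀ h0] at hm
  -- (l)
  have hXeq : ∀ c ∈ ball c0 ε, ∀ s, G c 0 < s → X c s = Ψ c s := by
    intro c hc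
    have hg0 := hG0 c 0
    have h1 : ∀ m : ℕ, ∀ s, G c 0 < s → s3 < D ^ m * s → X c s = Ψ c s := by
      intro m
      induction m with
      | zero =>
        intro s hs hs'
        rw [pow_zero, one_mul] at hs'
        exact hXeq3 c hc s hs'
      | succ m ih =>
        intro s hs hs'
        have hS : IsPreconnected {u : ℝ | G c 0 < u ∧ s3 < D ^ (m + 1) * u} := by
          apply Set.OrdConnected.isPreconnected
          refine ⟨fun x hx y hy z hz => ⟨hx.1.trans_le hz.1, hx.2.trans_le ?_⟩⟩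
          exact mul_le_mul_of_nonneg_left hz.1 (by positivity)
        have hu1 : s3 + 1 ∈ {u : ℝ | G c 0 < u ∧ s3 < D ^ (m + 1) * u} := by
          refine ⟨by linarith [hg3 c hc], ?_⟩
          have h2 : (1 : ℝ) ≤ D ^ (m + 1) := one_le_pow₀ (by linarith)
          nlinarith
        refine uniq d (by omega) G hGf hG0 c _ hS (s3 + 1) hu1 N (X c) (Ψ c) ?_ ?_ ?_ ?_ ?_ ?_ s
          ⟨hs, hs'⟩
        · have h2 : ContinuousOn (fun u : ℝ => ((c, u) : ℂ × ℝ))
              {u : ℝ | G c 0 < u ∧ s3 < D ^ (m + 1) * u} := by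
            apply Continuous.continuousOn
            fun_prop
          exact hXcont.comp h2 (fun u hu => ⟨hc, mem_Ici.2 (hg0.trans hu.1.le)⟩)
        · have h2 : ContinuousOn (fun u : ℝ => ((c, u) : ℂ × ℝ))
              {u : ℝ | G c 0 < u ∧ s3 < D ^ (m + 1) * u} := by
            apply Continuous.continuousOn
            fun_prop
          exact hΨc.comp h2 (fun u hu => hu.1)
        · intro u hu
          rw [hXG c hc u (hg0.trans hu.1.le)]
          exact hu.1
        · intro u hu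
          rw [hΨG c u hu.1]
          exact hu.1
        · intro u hu
          have hu0 : 0 < u := hg0.trans_lt hu.1
          rw [hXF c hc u hu0.le, hΨF c u hu.1]
          refine ih (D * u) (hu.1.trans_le (by nlinarith)) ?_
          have : D ^ m * (D * u) = D ^ (m + 1) * u := by rw [pow_succ]; ring
          rw [this]
          exact hu.2
        · exact hXeq3 c hc _ (by linarith)
    intro s hs
    have hs0 : 0 < s := hg0.trans_lt hs
    obtain ⟨m, hm⟩ := pow_unbounded_of_one_lt (s3 / s) (by linarith : 1 < D)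
    refine h1 m s hs ?_
    rwa [div_lt_iff₀ hs0] at hm
  -- fixed points
  have hfix : ∀ c ∈ ball c0 ε, ∀ z ∈ closedBall p r, h (c, z) = z → z = X c 0 := by
    intro c hc z hz hzh
    have h1 := hXh c hc 0 le_rfl hs20
    rw [mul_zero] at h1
    have h2 := hlip c (hB1 c hc) z hz (X c 0) (hXball c hc 0 le_rfl hs1.le)
    rw [hzh, ← h1] at h2
    have h3 : ‖z - X c 0‖ ≤ 0 := by
      by_contra hne
      push Not at hne
      nlinarith
    exact sub_eq_zero.1 (norm_le_zero_iff.1 h3)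
  have hfix2 : ∀ c ∈ ball c0 ε, ∀ z ∈ closedBall p r, (fc d c)^[N] z = z → z = X c 0 := by
    intro c hc z hz hzF
    refine hfix c hc z hz ?_
    have := hB c (hB1 c hc) z hz
    rwa [hzF] at this
  -- (m)
  have hhol : DifferentiableOn ℂ (fun c => X c 0) (ball c0 ε) := by
    have hZ1 : ∀ n : ℕ, ∀ c ∈ ball c0 ε, (fun w => h (c, w))^[n] p ∈ closedBall p r := by
      intro n
      induction n with
      | zero => intro c _; exact mem_closedBall_self hr.le
      | succ n ih =>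
        intro c hc
        rw [Function.iterate_succ_apply']
        exact ball_subset_closedBall (hmaps c (hB1 c hc) _ (ih c hc))
    have hZ2 : ∀ n : ℕ, ∀ c ∈ ball c0 ε,
        DifferentiableAt ℂ (fun c => (fun w => h (c, w))^[n] p) c := by
      intro n
      induction n with
      | zero => intro c _; exact differentiableAt_const _
      | succ n ih =>
        intro c hc
        have h1 : (fun c => (fun w => h (c, w))^[n + 1] p) =
            fun c => h (c, (fun w => h (c, w))^[n] p) := by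
          funext c
          rw [Function.iterate_succ_apply']
        rw [h1]
        have h2 : DifferentiableAt ℂ (fun c : ℂ => (c, (fun w => h (c, w))^[n] p)) c :=
          differentiableAt_id.prodMk (ih c hc)
        exact DifferentiableAt.comp (g := h) c (hdiff c (hB1 c hc) _ (hZ1 n c hc)) h2
    have hZ3 : ∀ n : ℕ, ∀ c ∈ ball c0 ε,
        dist ((fun w => h (c, w))^[n] p) (X c 0) ≤ lam ^ n * r := by
      intro n
      induction n with
      | zero =>
        intro c hc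
        rw [pow_zero, one_mul, dist_comm]
        exact hXball c hc 0 le_rfl hs1.le
      | succ n ih =>
        intro c hc
        have h1 := hXh c hc 0 le_rfl hs20
        rw [mul_zero] at h1
        rw [Function.iterate_succ_apply', h1, dist_eq_norm]
        refine (hlip c (hB1 c hc) _ (hZ1 n c hc) _ (hXball c hc 0 le_rfl hs1.le)).trans ?_
        have h2 := ih c hc
        rw [dist_eq_norm] at h2
        rw [pow_succ]
        nlinarith
    have hu : TendstoUniformlyOn (fun (n : ℕ) (c : ℂ) => (fun w => h (c, w))^[n] p)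
        (fun c => X c 0) atTop (ball c0 ε) := by
      rw [Metric.tendstoUniformlyOn_iff]
      intro δ hδ
      have h1 := (tendsto_pow_atTop_nhds_zero_of_lt_one hlam0 hlam1).mul_const r
      rw [zero_mul] at h1
      filter_upwards [h1.eventually_lt_const hδ] with n hn
      intro c hc
      rw [dist_comm]
      exact (hZ3 n c hc).trans_lt hn
    exact hu.tendstoLocallyUniformlyOn.differentiableOn
      (Eventually.of_forall fun n c hc => (hZ2 n c hc).differentiableWithinAt) isOpen_ball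
  refine ⟨ε, X, hεpos, hXcont, hXeq, hXG, hhol, hXF, ?_, r, hr, ?_⟩
  · exact (hfix2 c0 (mem_ball_self hεpos) p (mem_closedBall_self hr.le) hFp).symm
  · intro c hc z hz hzF
    exact hfix2 c hc z (ball_subset_closedBall hz) hzF


/-- the whole statement for an abstract family of rays -/
theorem main (d : ℕ) (hd : 2 ≤ d) (G : ℂ → ℂ → ℝ)
    (hGc : Continuous (fun q : ℂ × ℂ => G q.1 q.2))
    (hGf : ∀ c z, G c (fc d c z) = d * G c z) (hG0 : ∀ c z, 0 ≤ G c z)
    (Ψ : ℕ → ℂ → ℝ → ℂ)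
    (hΨc : ∀ j, ContinuousOn (fun q : ℂ × ℝ => Ψ j q.1 q.2) {q : ℂ × ℝ | G q.1 0 < q.2})
    (hΨG : ∀ j c s, G c 0 < s → G c (Ψ j c s) = s)
    (hΨF : ∀ j c s, G c 0 < s → fc d c (Ψ j c s) = Ψ (j + 1) c (d * s))
    (k N : ℕ) (hN : 1 ≤ N) (hper : ∀ m c s, G c 0 < s → Ψ (k + m * N) c s = Ψ k c s)
    (c0 q : ℂ) (hc0 : G c0 0 = 0) (hq : Tendsto (fun s => Ψ 0 c0 s) (𝓝[>] 0) (𝓝 q))
    (hne : ∀ j < k, (fc d c0)^[j] q ≠ 0)
    (hmul : 1 < ‖deriv ((fc d c0)^[N]) ((fc d c0)^[k] q)‖) :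
    ∃ (ε : ℝ) (γ : ℕ → ℂ → ℝ → ℂ), 0 < ε ∧
      (∀ j, ContinuousOn (fun q : ℂ × ℝ => γ j q.1 q.2) (ball c0 ε ×ˢ Ici 0) ∧
        (∀ c ∈ ball c0 ε, ∀ s, G c 0 < s → γ j c s = Ψ j c s) ∧
        (∀ c ∈ ball c0 ε, ∀ s, 0 ≤ s → G c (γ j c s) = s) ∧
        DifferentiableOn ℂ (fun c => γ j c 0) (ball c0 ε)) ∧
      (∀ j, ∀ c ∈ ball c0 ε, ∀ s : ℝ, 0 ≤ s → fc d c (γ j c s) = γ (j + 1) c (d * s)) ∧
      (∀ j, k ≤ j → ∀ c ∈ ball c0 ε, ∀ s : ℝ, 0 ≤ s → γ (j + N) c s = γ j c s) ∧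
      γ 0 c0 0 = q ∧
      ∃ r : ℝ, 0 < r ∧ ∀ c ∈ ball c0 ε, ∀ z ∈ ball q r,
        (fc d c)^[k + N] z = (fc d c)^[k] z → z = γ 0 c 0 := by
  have hdR : (2 : ℝ) ≤ d := by exact_mod_cast hd
  have hd0 : (0 : ℝ) < d := by linarith
  have hdn : ∀ n : ℕ, (1 : ℝ) ≤ (d : ℝ) ^ n := fun n => one_le_pow₀ (by linarith)
  -- iterated functional equation
  have hΨFn : ∀ n j c s, G c 0 < s → (fc d c)^[n] (Ψ j c s) = Ψ (j + n) c ((d : ℝ) ^ n * s) := by
    intro n
    induction n with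
    | zero => intro j c s _; simp
    | succ n ih =>
      intro j c s hs
      have h0 := hG0 c 0
      rw [Function.iterate_succ_apply', ih j c s hs, hΨF _ c _ (hs.trans_le ?_)]
      · rw [← mul_assoc, pow_succ, mul_comm (d : ℝ)]
        rfl
      · have := hdn n
        nlinarith [h0.trans hs.le]
  set p := (fc d c0)^[k] q with hpdef
  have hfcc : ∀ n, Continuous ((fc d c0)^[n]) := fun n =>
    (fc_cont d n).comp (Continuous.prodMk_right c0)
  -- landing of the periodic ray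
  have hscale : ∀ a : ℝ, 0 < a → Tendsto (fun s : ℝ => a * s) (𝓝[>] 0) (𝓝[>] 0) := by
    intro a ha
    apply tendsto_nhdsWithin_of_tendsto_nhds_of_eventually_within
    · have h1 : Tendsto (fun s : ℝ => a * s) (𝓝 0) (𝓝 (a * 0)) := by
        apply Continuous.tendsto
        fun_prop
      rw [mul_zero] at h1
      exact h1.mono_left nhdsWithin_le_nhds
    · filter_upwards [self_mem_nhdsWithin] with s hs
      exact mul_pos ha hs
  have hp : Tendsto (fun s => Ψ k c0 s) (𝓝[>] 0) (𝓝 p) := by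
    have h1 : Tendsto (fun s : ℝ => (fc d c0)^[k] (Ψ 0 c0 (((d : ℝ) ^ k)⁻¹ * s))) (𝓝[>] 0)
        (𝓝 ((fc d c0)^[k] q)) :=
      ((hfcc k).tendsto q).comp (hq.comp (hscale _ (by positivity)))
    refine h1.congr' ?_
    filter_upwards [self_mem_nhdsWithin] with s hs
    have hs' : 0 < s := hs
    rw [hΨFn k 0 c0 _ (by rw [hc0]; positivity), zero_add, mul_inv_cancel_left₀ (by positivity)]
  have hΨN : ∀ c s, G c 0 < s → (fc d c)^[N] (Ψ k c s) = Ψ k c ((d : ℝ) ^ N * s) := by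
    intro c s hs
    rw [hΨFn N k c s hs]
    have h1 := hper 1 c ((d : ℝ) ^ N * s) (hs.trans_le (by
      have := hdn N
      nlinarith [(hG0 c 0).trans hs.le]))
    rwa [one_mul] at h1
  have hFp : (fc d c0)^[N] p = p := by
    have h1 : Tendsto (fun s : ℝ => (fc d c0)^[N] (Ψ k c0 s)) (𝓝[>] 0) (𝓝 ((fc d c0)^[N] p)) :=
      ((hfcc N).tendsto p).comp hp
    have h2 : Tendsto (fun s : ℝ => Ψ k c0 ((d : ℝ) ^ N * s)) (𝓝[>] 0) (𝓝 p) :=
      hp.comp (hscale _ (by positivity))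
    refine tendsto_nhds_unique h1 (h2.congr' ?_)
    filter_upwards [self_mem_nhdsWithin] with s hs
    exact (hΨN c0 s (by rw [hc0]; exact hs)).symm
  obtain ⟨ε1, X, hε1, hXc, hXeq, hXG, hXh, hXF, hX0, r1, hr1, hXu⟩ :=
    per_part d hd G hGc hGf hG0 (Ψ k) (hΨc k) (hΨG k) N hN hΨN c0 p hc0 hp hFp hmul
  -- the local inverse
  obtain ⟨H, hHa, hH0, hHA, hHB⟩ := locinv d (by omega) c0 k q hne
  rw [← hpdef] at hHa hH0 hHA
  have hU1 : {x | (fc d x.1)^[k] (H x) = x.2} ∩ {x | DifferentiableAt ℂ H x} ∈ 𝓝 (c0, p) := by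
    refine inter_mem hHA ?_
    filter_upwards [hHa.eventually_analyticAt] with x hx
    exact hx.differentiableAt
  obtain ⟨ρ1, hρ1, hρU1⟩ := Metric.mem_nhds_iff.1 hU1
  obtain ⟨ρ2, hρ2, hρU2⟩ := Metric.mem_nhds_iff.1 hHB
  -- the continuity of `X` at the landing point
  have hXδ : ∃ δ : ℝ, 0 < δ ∧ ∀ c ∈ ball c0 δ, c ∈ ball c0 ε1 → ∀ s, 0 ≤ s → s < δ →
      X c s ∈ ball p ρ1 := by
    have h1 : ContinuousWithinAt (fun q : ℂ × ℝ => X q.1 q.2) (ball c0 ε1 ×ˢ Ici 0) (c0, 0) :=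
      hXc _ ⟨mem_ball_self hε1, mem_Ici.2 le_rfl⟩
    have h2 := h1.preimage_mem_nhdsWithin (isOpen_ball.mem_nhds (x := X c0 0) (s := ball p ρ1)
      (by rw [hX0]; exact mem_ball_self hρ1))
    obtain ⟨δ, hδ, hδ2⟩ := Metric.mem_nhdsWithin_iff.1 h2
    refine ⟨δ, hδ, fun c hc hc1 s hs hs' => ?_⟩
    have h3 : ((c, s) : ℂ × ℝ) ∈ ball (c0, (0 : ℝ)) δ ∩ ball c0 ε1 ×ˢ Ici 0 := by
      refine ⟨?_, hc1, hs⟩
      rw [mem_ball, Prod.dist_eq]
      refine max_lt (mem_ball.1 hc) ?_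
      change dist s 0 < δ
      rw [Real.dist_eq, sub_zero, abs_of_nonneg hs]
      exact hs'
    exact hδ2 h3
  obtain ⟨δ, hδ, hδX⟩ := hXδ
  have hΨq : ∃ δ' : ℝ, 0 < δ' ∧ ∀ s, 0 < s → s ≤ δ' → Ψ 0 c0 s ∈ ball q ρ2 := by
    have h1 := hq.eventually_mem (isOpen_ball.mem_nhds (mem_ball_self hρ2))
    rw [eventually_nhdsWithin_iff] at h1
    obtain ⟨δ, hδ, hδ2⟩ := Metric.eventually_nhds_iff_ball.1 h1
    refine ⟨δ / 2, by positivity, fun s hs hs2 => hδ2 s ?_ hs⟩
    rw [mem_ball, Real.dist_eq, sub_zero, abs_of_pos hs]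
    linarith
  obtain ⟨δ', hδ', hδΨ⟩ := hΨq
  set D : ℝ := (d : ℝ) ^ k with hD
  have hD1 : 1 ≤ D := hdn k
  have hs1 : ∃ s1 : ℝ, 0 < s1 ∧ D * s1 < δ ∧ s1 ≤ δ' := by
    refine ⟨min (δ / (2 * D)) δ', lt_min (by positivity) hδ', ?_, min_le_right _ _⟩
    have h1 : min (δ / (2 * D)) δ' ≤ δ / (2 * D) := min_le_left _ _
    calc D * min (δ / (2 * D)) δ' ≤ D * (δ / (2 * D)) :=
          mul_le_mul_of_nonneg_left h1 (by linarith)
      _ = δ / 2 := by field_simp
      _ < δ := by linarith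
  obtain ⟨s1, hs10, hs1δ, hs1δ'⟩ := hs1
  set s3 := s1 / 2 with hs3
  have hs30 : 0 < s3 := by positivity
  have hs31 : s3 < s1 := by rw [hs3]; linarith
  obtain ⟨ε2, hε2, htube⟩ := tube G hGc (Ψ 0) (hΨc 0) c0 q ρ2 s3 s1 (by rw [hc0]; exact hs30)
    (fun s hs => hδΨ s (hs30.trans_le hs.1) (hs.2.trans hs1δ'))
  -- uniqueness radius
  have hFk : ∀ᶠ y in 𝓝 (c0, q), (fc d y.1)^[k] y.2 ∈ ball p r1 := by
    apply (fc_cont d k).continuousAt.eventually_mem
    apply isOpen_ball.mem_nhds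
    exact mem_ball_self hr1
  obtain ⟨ρ3, hρ3, hρU3⟩ := Metric.eventually_nhds_iff_ball.1 hFk
  set ε := min (min ε1 ε2) (min (min ρ1 ρ2) (min ρ3 δ)) with hε
  have hεpos : 0 < ε := lt_min (lt_min hε1 hε2) (lt_min (lt_min hρ1 hρ2) (lt_min hρ3 hδ))
  have hsub : ∀ {e : ℝ}, ε ≤ e → ∀ c ∈ ball c0 ε, c ∈ ball c0 e := fun he c hc =>
    ball_subset_ball he hc
  have e1 : ε ≤ ε1 := (min_le_left _ _).trans (min_le_left _ _)
  have e2 : ε ≤ ε2 := (min_le_left _ _).trans (min_le_right _ _)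
  have e3 : ε ≤ ρ1 := (min_le_right _ _).trans ((min_le_left _ _).trans (min_le_left _ _))
  have e4 : ε ≤ ρ2 := (min_le_right _ _).trans ((min_le_left _ _).trans (min_le_right _ _))
  have e5 : ε ≤ ρ3 := (min_le_right _ _).trans ((min_le_right _ _).trans (min_le_left _ _))
  have e6 : ε ≤ δ := (min_le_right _ _).trans ((min_le_right _ _).trans (min_le_right _ _))
  have hpair : ∀ {e : ℝ} (z0 c z : ℂ), c ∈ ball c0 e → z ∈ ball z0 e →
      ((c, z) : ℂ × ℂ) ∈ ball (c0, z0) e := by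
    intro e z0 c z hc hz
    rw [mem_ball, Prod.dist_eq]
    exact max_lt hc hz
  have hg3 : ∀ c ∈ ball c0 ε, G c 0 < s3 := fun c hc =>
    (htube c (hsub e2 c hc) s3 ⟨le_rfl, hs31.le⟩).1
  have hopenΨ : IsOpen {q : ℂ × ℝ | G q.1 0 < q.2} := by
    apply isOpen_lt _ continuous_snd
    exact hGc.comp (continuous_fst.prodMk continuous_const)
  -- the preperiodic ray
  set Y : ℂ → ℝ → ℂ := fun c s => if s < s1 then H (c, X c (D * s)) else Ψ 0 c s with hY
  have hYlt : ∀ c s, s < s1 → Y c s = H (c, X c (D * s)) := fun c s hs => if_pos hs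
  have hYge : ∀ c s, s1 ≤ s → Y c s = Ψ 0 c s := fun c s hs => if_neg (not_lt.2 hs)
  have hXball : ∀ c ∈ ball c0 ε, ∀ s, 0 ≤ s → s < s1 → X c (D * s) ∈ ball p ρ1 := by
    intro c hc s hs hss
    exact hδX c (hsub e6 c hc) (hsub e1 c hc) _ (by positivity) (by nlinarith)
  have hYa : ∀ c ∈ ball c0 ε, ∀ s, s3 < s → Y c s = Ψ 0 c s := by
    intro c hc s hs
    rcases lt_or_ge s s1 with hss | hss
    · have hgs : G c 0 < s := (hg3 c hc).trans hs
      rw [hYlt c s hss, hXeq c (hsub e1 c hc) (D * s)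
        (hgs.trans_le (by nlinarith))]
      have h1 := hΨFn k 0 c s hgs
      rw [zero_add] at h1
      rw [← h1]
      have h2 := htube c (hsub e2 c hc) s ⟨hs.le, hss.le⟩
      exact hρU2 (hpair q c (Ψ 0 c s) (hsub e4 c hc) h2.2)
    · exact hYge c s hss
  have hYcont : ContinuousOn (fun q : ℂ × ℝ => Y q.1 q.2) (ball c0 ε ×ˢ Ici 0) := by
    rintro ⟨c, s⟩ ⟨hc, hs⟩
    have hc' : c ∈ ball c0 ε := hc
    have hs' : 0 ≤ s := hs
    rcases lt_or_ge s s1 with hss | hss
    · have h1 : ContinuousWithinAt (fun q : ℂ × ℝ => (q.1, D * q.2)) (ball c0 ε ×ˢ Ici 0)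
          (c, s) := by
        apply Continuous.continuousWithinAt
        fun_prop
      have hmem : ((c, D * s) : ℂ × ℝ) ∈ (ball c0 ε1 ×ˢ Ici 0 : Set (ℂ × ℝ)) :=
        ⟨hsub e1 c hc', mem_Ici.2 (by positivity)⟩
      have h2 : ContinuousWithinAt (fun q : ℂ × ℝ => X q.1 (D * q.2))
          (ball c0 ε ×ˢ Ici 0) (c, s) := by
        refine ContinuousWithinAt.comp (t := ball c0 ε1 ×ˢ Ici 0)
          (g := fun q : ℂ × ℝ => X q.1 q.2)
          (f := fun q : ℂ × ℝ => (q.1, D * q.2)) (hXc _ hmem) h1 ?_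
        rintro ⟨c', s'⟩ ⟨hc1, hs1⟩
        exact ⟨hsub e1 c' hc1, mem_Ici.2 (mul_nonneg (by linarith) (mem_Ici.1 hs1))⟩
      have h3 : ContinuousWithinAt (fun q : ℂ × ℝ => (q.1, X q.1 (D * q.2)))
          (ball c0 ε ×ˢ Ici 0) (c, s) := continuousWithinAt_fst.prodMk h2
      have h4 : ContinuousAt H (c, X c (D * s)) :=
        (hρU1 (hpair p c _ (hsub e3 c hc') (hXball c hc' s hs' hss))).2.continuousAt
      have h5 : ContinuousWithinAt (fun q : ℂ × ℝ => H (q.1, X q.1 (D * q.2)))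
          (ball c0 ε ×ˢ Ici 0) (c, s) :=
        ContinuousAt.comp_continuousWithinAt (g := H)
          (f := fun q : ℂ × ℝ => (q.1, X q.1 (D * q.2))) h4 h3
      refine h5.congr_of_eventuallyEq ?_ (hYlt c s hss)
      have h6 : {q : ℂ × ℝ | q.2 < s1} ∈ 𝓝 (c, s) :=
        (isOpen_lt continuous_snd continuous_const).mem_nhds hss
      filter_upwards [mem_nhdsWithin_of_mem_nhds h6] with q hq
      exact hYlt q.1 q.2 hq
    · have hss3 : s3 < s := by linarith
      have h1 : ContinuousAt (fun q : ℂ × ℝ => Ψ 0 q.1 q.2) (c, s) :=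
        (hΨc 0).continuousAt (hopenΨ.mem_nhds ((hg3 c hc').trans hss3))
      refine h1.continuousWithinAt.congr_of_eventuallyEq ?_ (hYa c hc' s hss3)
      have h6 : {q : ℂ × ℝ | s3 < q.2} ∈ 𝓝 (c, s) :=
        (isOpen_lt continuous_const continuous_snd).mem_nhds hss3
      filter_upwards [mem_nhdsWithin_of_mem_nhds h6, self_mem_nhdsWithin] with q hq hq2
      exact hYa q.1 hq2.1 q.2 hq
  have hYF : ∀ c ∈ ball c0 ε, ∀ s, 0 ≤ s → (fc d c)^[k] (Y c s) = X c (D * s) := by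
    intro c hc s hs
    rcases lt_or_ge s s1 with hss | hss
    · rw [hYlt c s hss]
      exact (hρU1 (hpair p c _ (hsub e3 c hc) (hXball c hc s hs hss))).1
    · have hgs : G c 0 < s := (hg3 c hc).trans (by linarith)
      rw [hYge c s hss, hΨFn k 0 c s hgs, zero_add, hXeq c (hsub e1 c hc) (D * s)
        (hgs.trans_le (by nlinarith))]
  have hYG : ∀ c ∈ ball c0 ε, ∀ s, 0 ≤ s → G c (Y c s) = s := by
    intro c hc s hs
    have h1 := hXG c (hsub e1 c hc) (D * s) (by positivity)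
    rw [← hYF c hc s hs, iter_green d G hGf] at h1
    exact mul_left_cancel₀ (by positivity : D ≠ 0) h1
  have hYeq : ∀ c ∈ ball c0 ε, ∀ s, G c 0 < s → Y c s = Ψ 0 c s := by
    intro c hc
    have hg0 := hG0 c 0
    refine uniq d (by omega) G hGf hG0 c (Ioi (G c 0)) isPreconnected_Ioi (s3 + 1)
      (mem_Ioi.2 (by linarith [hg3 c hc])) k (Y c) (Ψ 0 c) ?_ ?_ ?_ ?_ ?_ ?_
    · have h2 : ContinuousOn (fun u : ℝ => ((c, u) : ℂ × ℝ)) (Ioi (G c 0)) := by
        apply Continuous.continuousOn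
        fun_prop
      exact hYcont.comp h2 (fun u hu => ⟨hc, mem_Ici.2 (hg0.trans (mem_Ioi.1 hu).le)⟩)
    · have h2 : ContinuousOn (fun u : ℝ => ((c, u) : ℂ × ℝ)) (Ioi (G c 0)) := by
        apply Continuous.continuousOn
        fun_prop
      exact (hΨc 0).comp h2 (fun u hu => hu)
    · intro u hu
      rw [hYG c hc u (hg0.trans (mem_Ioi.1 hu).le)]
      exact hu
    · intro u hu
      rw [hΨG 0 c u hu]
      exact hu
    · intro u hu
      have hu' : G c 0 < u := hu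
      have hu0 : 0 < u := hg0.trans_lt hu'
      rw [hYF c hc u hu0.le, hΨFn k 0 c u hu', zero_add, hXeq c (hsub e1 c hc) (D * u)
        (hu'.trans_le (by nlinarith))]
    · exact hYa c hc _ (by linarith)
  have hYhol : DifferentiableOn ℂ (fun c => Y c 0) (ball c0 ε) := by
    intro c hc
    have h1 : DifferentiableAt ℂ (fun c => X c 0) c :=
      hXh.differentiableAt (isOpen_ball.mem_nhds (hsub e1 c hc))
    have h2 : DifferentiableAt ℂ (fun c : ℂ => (c, X c 0)) c := differentiableAt_id.prodMk h1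
    have h3 := hXball c hc 0 le_rfl hs10
    rw [mul_zero] at h3
    have h4 : DifferentiableAt ℂ H (c, X c 0) := (hρU1 (hpair p c _ (hsub e3 c hc) h3)).2
    have h5 : (fun c => Y c 0) = fun c => H (c, X c 0) := by
      funext c
      rw [hYlt c 0 hs10, mul_zero]
    rw [h5]
    exact (DifferentiableAt.comp (g := H) c h4 h2).differentiableWithinAt
  have hY0 : Y c0 0 = q := by
    rw [hYlt c0 0 hs10, mul_zero, hX0, hH0]
  have hYu : ∀ c ∈ ball c0 ε, ∀ z ∈ ball q (min ρ2 ρ3),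
      (fc d c)^[k + N] z = (fc d c)^[k] z → z = Y c 0 := by
    intro c hc z hz hzk
    have h1 : (fc d c)^[k] z ∈ ball p r1 := by
      refine hρU3 (c, z) ?_
      exact hpair q c z (hsub e5 c hc) (ball_subset_ball (min_le_right _ _) hz)
    have h2 : (fc d c)^[k] z = X c 0 := by
      apply hXu c (hsub e1 c hc) _ h1
      rw [← Function.iterate_add_apply, add_comm N k]
      exact hzk
    have h3 : H (c, (fc d c)^[k] z) = z :=
      hρU2 (hpair q c z (hsub e4 c hc) (ball_subset_ball (min_le_left _ _) hz))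
    rw [hYlt c 0 hs10, mul_zero, ← h2, h3]
  -- all the rays
  have hγcont : ∀ j : ℕ, ContinuousOn
      (fun q : ℂ × ℝ => (fc d q.1)^[j] (Y q.1 (q.2 / (d : ℝ) ^ j))) (ball c0 ε ×ˢ Ici 0) := by
    intro j
    have h1 : ContinuousOn (fun q : ℂ × ℝ => (q.1, q.2 / (d : ℝ) ^ j)) (ball c0 ε ×ˢ Ici 0) := by
      apply Continuous.continuousOn
      fun_prop
    have h2 : ContinuousOn (fun q : ℂ × ℝ => Y q.1 (q.2 / (d : ℝ) ^ j)) (ball c0 ε ×ˢ Ici 0) := by
      refine hYcont.comp h1 ?_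
      rintro ⟨c, s⟩ ⟨hc, hs⟩
      exact ⟨hc, mem_Ici.2 (div_nonneg (mem_Ici.1 hs) (by positivity))⟩
    exact (fc_cont d j).comp_continuousOn (continuousOn_fst.prodMk h2)
  have hγG : ∀ j : ℕ, ∀ c ∈ ball c0 ε, ∀ s, 0 ≤ s →
      G c ((fc d c)^[j] (Y c (s / (d : ℝ) ^ j))) = s := by
    intro j c hc s hs
    rw [iter_green d G hGf, hYG c hc _ (by positivity)]
    field_simp
  have hγper : ∀ m : ℕ, ∀ c ∈ ball c0 ε, ∀ s, 0 ≤ s →
      (fc d c)^[k + m * N] (Y c (s / (d : ℝ) ^ (k + m * N))) = X c s := by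
    intro m
    induction m with
    | zero =>
      intro c hc s hs
      rw [zero_mul, add_zero, hYF c hc _ (by positivity)]
      congr 1
      rw [hD]
      field_simp
    | succ m ih =>
      intro c hc s hs
      have h1 : k + (m + 1) * N = N + (k + m * N) := by ring
      have h2 : s / (d : ℝ) ^ (k + (m + 1) * N) = s / (d : ℝ) ^ N / (d : ℝ) ^ (k + m * N) := by
        rw [h1, pow_add, div_div]
      rw [h2, h1, Function.iterate_add_apply, ih c hc _ (by positivity),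
        hXF c (hsub e1 c hc) _ (by positivity)]
      congr 1
      field_simp
  have hγeq : ∀ j : ℕ, ∀ c ∈ ball c0 ε, ∀ s, G c 0 < s →
      (fc d c)^[j] (Y c (s / (d : ℝ) ^ j)) = Ψ j c s := by
    intro j c hc
    have hg0 := hG0 c 0
    -- choose a later periodic index
    have hn : ∃ n m : ℕ, j + n = k + m * N := by
      refine ⟨k + j * N - j, j, ?_⟩
      have : j ≤ j * N := Nat.le_mul_of_pos_right j (by omega)
      omega
    obtain ⟨n, m, hnm⟩ := hn
    have hu1 : (d : ℝ) ^ j * (s3 + 1) ∈ Ioi (G c 0) := by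
      have h1 := hdn j
      have h2 := hg3 c hc
      rw [mem_Ioi]
      nlinarith
    refine uniq d (by omega) G hGf hG0 c (Ioi (G c 0)) isPreconnected_Ioi
      ((d : ℝ) ^ j * (s3 + 1)) hu1 n (fun s => (fc d c)^[j] (Y c (s / (d : ℝ) ^ j))) (Ψ j c)
      ?_ ?_ ?_ ?_ ?_ ?_
    · have h2 : ContinuousOn (fun u : ℝ => ((c, u) : ℂ × ℝ)) (Ioi (G c 0)) := by
        apply Continuous.continuousOn
        fun_prop
      exact (hγcont j).comp h2 (fun u hu => ⟨hc, mem_Ici.2 (hg0.trans (mem_Ioi.1 hu).le)⟩)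
    · have h2 : ContinuousOn (fun u : ℝ => ((c, u) : ℂ × ℝ)) (Ioi (G c 0)) := by
        apply Continuous.continuousOn
        fun_prop
      exact (hΨc j).comp h2 (fun u hu => hu)
    · intro u hu
      change G c 0 < G c ((fc d c)^[j] (Y c (u / (d : ℝ) ^ j)))
      rw [hγG j c hc u (hg0.trans (mem_Ioi.1 hu).le)]
      exact hu
    · intro u hu
      rw [hΨG j c u hu]
      exact hu
    · intro u hu
      have hu' : G c 0 < u := hu
      have hu0 : 0 < u := hg0.trans_lt hu'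
      have hdu : G c 0 < (d : ℝ) ^ n * u := hu'.trans_le (by
        have := hdn n
        nlinarith)
      change (fc d c)^[n] ((fc d c)^[j] (Y c (u / (d : ℝ) ^ j))) = _
      rw [hΨFn n j c u hu', hnm, hper m c _ hdu, ← hXeq c (hsub e1 c hc) _ hdu,
        ← hγper m c hc _ (by positivity), ← Function.iterate_add_apply, add_comm n j, hnm]
      congr 2
      rw [← hnm, pow_add]
      field_simp
    · change (fc d c)^[j] (Y c ((d : ℝ) ^ j * (s3 + 1) / (d : ℝ) ^ j)) = _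
      rw [mul_div_cancel_left₀ _ (by positivity), hYa c hc _ (by linarith),
        hΨFn j 0 c _ (by linarith [hg3 c hc]), zero_add]
  refine ⟨ε, fun j c s => (fc d c)^[j] (Y c (s / (d : ℝ) ^ j)), hεpos, ?_, ?_, ?_, ?_,
    min ρ2 ρ3, lt_min hρ2 hρ3, ?_⟩
  · intro j
    refine ⟨hγcont j, hγeq j, hγG j, ?_⟩
    have h1 : (fun c => (fc d c)^[j] (Y c (0 / (d : ℝ) ^ j))) =
        fun c => (fc d c)^[j] (Y c 0) := by
      funext c
      rw [zero_div]
    change DifferentiableOn ℂ (fun c => (fc d c)^[j] (Y c (0 / (d : ℝ) ^ j))) (ball c0 ε)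
    rw [h1]
    have h2 : DifferentiableOn ℂ (fun c : ℂ => (c, Y c 0)) (ball c0 ε) :=
      differentiableOn_id.prodMk hYhol
    exact (fc_diff d j).comp_differentiableOn h2
  · intro j c hc s hs
    change fc d c ((fc d c)^[j] (Y c (s / (d : ℝ) ^ j))) =
      (fc d c)^[j + 1] (Y c (d * s / (d : ℝ) ^ (j + 1)))
    rw [← Function.iterate_succ_apply' (fc d c) j]
    congr 2
    rw [pow_succ]
    field_simp
  · intro j hj c hc s hs
    obtain ⟨i, rfl⟩ := Nat.exists_eq_add_of_le' hj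
    change (fc d c)^[i + k + N] (Y c (s / (d : ℝ) ^ (i + k + N))) =
      (fc d c)^[i + k] (Y c (s / (d : ℝ) ^ (i + k)))
    have h1 : (fc d c)^[i + k] (Y c (s / (d : ℝ) ^ (i + k))) =
        (fc d c)^[i] (X c (s / (d : ℝ) ^ i)) := by
      rw [Function.iterate_add_apply, hYF c hc _ (by positivity)]
      congr 2
      rw [hD, pow_add]
      field_simp
    have h2 : (fc d c)^[i + k + N] (Y c (s / (d : ℝ) ^ (i + k + N))) =
        (fc d c)^[i] (X c (s / (d : ℝ) ^ i)) := by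
      rw [show i + k + N = i + (N + k) by ring, Function.iterate_add_apply _ i,
        Function.iterate_add_apply _ N, hYF c hc _ (by positivity),
        hXF c (hsub e1 c hc) _ (by positivity)]
      congr 2
      rw [hD, pow_add, pow_add]
      field_simp
    rw [h1, h2]
  · change Y c0 (0 / (d : ℝ) ^ 0) = q
    rw [zero_div, hY0]
  · intro c hc z hz hzk
    change z = Y c (0 / (d : ℝ) ^ 0)
    rw [zero_div]
    exact hYu c hc z hz hzk


open Pool.Agent.H713R2.AR Pool.Agent.Y272.LC in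
/-- STAB, with the periodicity of the family -/
theorem t2 (hG : St_Grn) : St_Stab2 := by
  intro d Φ hd hB c0 hc0 t k N q hN hm hq hne hmul
  obtain ⟨hGc, hGf, _, _⟩ := hG d hd
  have hdR : (2 : ℝ) ≤ d := by exact_mod_cast hd
  have hzre : ∀ s t, (zt s t).re = s := by
    intro s t
    simp [zt]
  have hzmul : ∀ s t, (d : ℂ) * zt s t = zt (d * s) (d * t) := by
    intro s t
    unfold zt
    push_cast
    ring
  have hzper : ∀ s t, zt s (t + 1) = zt s t + ((2 * Real.pi : ℝ) : ℂ) * I := by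
    intro s t
    unfold zt
    push_cast
    ring
  have hper1 : ∀ c s t, green d c 0 < s → Φ c (zt s (t + 1)) = Φ c (zt s t) := by
    intro c s t hs
    rw [hzper, hB.per c _ (by rw [hzre]; exact hs)]
  have hperm : ∀ c s (m : ℤ) t, green d c 0 < s → Φ c (zt s (t + m)) = Φ c (zt s t) := by
    intro c s m
    induction m with
    | zero => intro t _; simp
    | succ m ih =>
      intro t hs
      push_cast
      rw [← add_assoc, hper1 c s _ hs]
      have := ih t hs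
      push_cast at this
      exact this
    | pred m ih =>
      intro t hs
      have h1 := hper1 c s (t + ((-(m : ℤ) - 1 : ℤ) : ℝ)) hs
      have h2 := ih t hs
      rw [← h1]
      have h3 : t + ((-(m : ℤ) - 1 : ℤ) : ℝ) + 1 = t + ((-(m : ℤ) : ℤ) : ℝ) := by
        push_cast
        ring
      rw [h3, h2]
  have hcont : ∀ j : ℕ, ContinuousOn (fun q : ℂ × ℝ => Φ q.1 (zt q.2 ((d : ℝ) ^ j * t)))
      {q : ℂ × ℝ | green d q.1 0 < q.2} := by
    intro j
    have h1 : Continuous (fun q : ℂ × ℝ => ((q.1, zt q.2 ((d : ℝ) ^ j * t)) : ℂ × ℂ)) := by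
      unfold zt
      fun_prop
    refine hB.cont.comp h1.continuousOn ?_
    intro q hq
    change green d q.1 0 < (zt q.2 ((d : ℝ) ^ j * t)).re
    rw [hzre]
    exact hq
  obtain ⟨m, hm⟩ := hm
  obtain ⟨ε, γ, hε, hγ, hF, hP, h0, r, hr, hu⟩ := main d hd (green d) hGc hGf (green_nonneg hd)
    (fun j c s => Φ c (zt s ((d : ℝ) ^ j * t))) hcont
    (fun j c s hs => by
      have := hB.grn c (zt s ((d : ℝ) ^ j * t)) (by rw [hzre]; exact hs)
      rwa [hzre] at this)
    (fun j c s hs => by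
      change fc d c (Φ c (zt s ((d : ℝ) ^ j * t))) = Φ c (zt (d * s) ((d : ℝ) ^ (j + 1) * t))
      rw [hB.map c _ (by rw [hzre]; exact hs), hzmul]
      congr 2
      rw [pow_succ]
      ring)
    k N hN
    (fun n c s hs => by
      change Φ c (zt s ((d : ℝ) ^ (k + n * N) * t)) = Φ c (zt s ((d : ℝ) ^ k * t))
      have h1 : ∃ M : ℤ, (d : ℝ) ^ (k + n * N) * t = (d : ℝ) ^ k * t + M := by
        induction n with
        | zero => exact ⟨0, by simp⟩
        | succ n ih =>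
          obtain ⟨M, hM⟩ := ih
          refine ⟨M + (d : ℤ) ^ (n * N) * m, ?_⟩
          have e1 : (d : ℝ) ^ (k + (n + 1) * N) * t =
              (d : ℝ) ^ (n * N) * (((d : ℝ) ^ (k + N) - (d : ℝ) ^ k) * t) +
                (d : ℝ) ^ (k + n * N) * t := by
            rw [show k + (n + 1) * N = n * N + (k + N) by ring,
              show k + n * N = n * N + k by ring, pow_add _ (n * N), pow_add _ (n * N)]
            ring
          rw [e1, hm, hM]
          push_cast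
          ring
      obtain ⟨M, hM⟩ := h1
      rw [hM, hperm c s M _ hs])
    c0 q hc0 (by
      refine hq.congr fun s => ?_
      change Φ c0 (zt s t) = Φ c0 (zt s ((d : ℝ) ^ 0 * t))
      rw [pow_zero, one_mul])
    hne hmul
  exact ⟨ε, γ, hε, fun j => ⟨(hγ j).1, (hγ j).2.1, (hγ j).2.2.1, (hγ j).2.2.2⟩, hF, hP, h0, r, hr, hu⟩

open Pool.Agent.H713R2.AR Pool.Agent.Y272.LC in
/-- STAB -/
theorem t (hG : St_Grn) : St_Stab := by
  intro d Φ hd hB c0 hc0 t k N q hN hm hq hne hmul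
  obtain ⟨ε, γ, hε, hγ, hF, _, h0, h1⟩ := t2 hG d Φ hd hB c0 hc0 t k N q hN hm hq hne hmul
  exact ⟨ε, γ, hε, hγ, hF, h0, h1⟩

end Pool.Agent.Y925.LC
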