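import Pool.Agent.Y298.LC.Stm

/-!
# Project LC, piece SLIT: branches of the inverse on the slit plane
-/

set_option autoImplicit false

open Set Filter Metric MeasureTheory Topology Complex Bornology

namespace Pool.Agent.Y925.LC.SlitB

open Pool.Agent.H712R2 (P fc)
open Pool.Agent.H713R2 (IsExteriorMap)
open Pool.Agent.H713R2.AR (green)
open N62a1eb23 (multibrotSet)
open Pool.Agent.Y298.LC

/-- continuous logarithm on the line -/
theorem exists_log (F : ℝ → ℂ) (hF : Continuous F) (h0 : ∀ x, F x ≠ 0) :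
    ∃ M : ℝ → ℂ, Continuous M ∧ ∀ x, Complex.exp (M x) = F x := by
  haveI : SimplyConnectedSpace ℝ := SimplyConnectedSpace.ofContractible ℝ
  rcases isCoveringMapOn_exp.existsUnique_continuousMap_lifts
    (⟨F, hF⟩ : C(ℝ, ℂ)) (exp_log (h0 0)) (fun x => h0 x) with ⟨f, ⟨-, hf⟩, -⟩
  exact ⟨f, f.continuous, fun x => congrFun hf x⟩

theorem exp_lift_unique {X : Type*} [TopologicalSpace X] {S : Set X} (hS : IsPreconnected S)
    {u v : X → ℂ} (hu : ContinuousOn u S) (hv : ContinuousOn v S)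
    (h : ∀ x ∈ S, Complex.exp (u x) = Complex.exp (v x)) {x₀ : X} (hx₀ : x₀ ∈ S)
    (h0 : u x₀ = v x₀) : ∀ x ∈ S, u x = v x := by
  have cov := Complex.isCoveringMap_exp
  have := cov.eqOn_of_comp_eqOn hS hu hv ?_ hx₀ h0
  · exact this
  · intro x hx
    apply Subtype.ext
    exact h x hx

theorem log_unique (S : Set ℝ) (hS : IsPreconnected S) (u v : ℝ → ℂ) (hu : ContinuousOn u S)
    (hv : ContinuousOn v S) (h : ∀ x ∈ S, Complex.exp (u x) = Complex.exp (v x)) (x0 : ℝ)
    (hx0 : x0 ∈ S) : ∃ k : ℤ, ∀ x ∈ S, u x = v x + k * (2 * Real.pi * I) := by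
  obtain ⟨k, hk⟩ := Complex.exp_eq_exp_iff_exists_int.1 (h x0 hx0)
  refine ⟨k, ?_⟩
  refine exp_lift_unique hS hu (hv.add continuousOn_const) (fun x hx => ?_) hx0 hk
  rw [h x hx, Complex.exp_eq_exp_iff_exists_int]
  exact ⟨-k, by push_cast; ring⟩

theorem exists_lift (s : ℝ) (F : ℝ → ℂ) (hF : ContinuousOn F (Ici s))
    (h0 : ∀ σ, s ≤ σ → F σ ≠ 0) (hlim : Tendsto F atTop (𝓝 1)) :
    ∃ M : ℝ → ℂ, ContinuousOn M (Ici s) ∧ (∀ σ, s ≤ σ → Complex.exp (M σ) = F σ) ∧
      Tendsto M atTop (𝓝 0) := by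
  have hext : Continuous fun σ => F (max σ s) :=
    hF.comp_continuous (continuous_id.max continuous_const)
      (fun σ => mem_Ici.2 (le_max_right _ _))
  obtain ⟨M, hM, hMe⟩ := exists_log _ hext (fun σ => h0 _ (le_max_right _ _))
  have hMe' : ∀ σ, s ≤ σ → Complex.exp (M σ) = F σ := by
    intro σ hσ
    rw [hMe, max_eq_left hσ]
  have hsl : ∀ᶠ σ in atTop, F σ ∈ slitPlane :=
    hlim.eventually (isOpen_slitPlane.mem_nhds one_mem_slitPlane)
  obtain ⟨T, hT⟩ := eventually_atTop.1 (hsl.and (eventually_ge_atTop s))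
  have hlogc : ContinuousOn (fun σ => Complex.log (F σ)) (Ici T) := by
    refine ContinuousOn.clog (hF.mono ?_) ?_
    · intro σ hσ
      exact (hT σ hσ).2
    · intro σ hσ
      exact (hT σ hσ).1
  obtain ⟨k, hk⟩ := log_unique (Ici T) isPreconnected_Ici M (fun σ => Complex.log (F σ))
    hM.continuousOn hlogc (fun σ hσ => by
      rw [hMe' σ (hT σ hσ).2, Complex.exp_log (h0 σ (hT σ hσ).2)]) T (mem_Ici.2 le_rfl)
  refine ⟨fun σ => M σ - k * (2 * Real.pi * I), (hM.sub continuous_const).continuousOn, ?_, ?_⟩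
  · intro σ hσ
    rw [← hMe' σ hσ, Complex.exp_eq_exp_iff_exists_int]
    exact ⟨-k, by push_cast; ring⟩
  · have h1 : Tendsto (fun σ => Complex.log (F σ)) atTop (𝓝 0) := by
      have := hlim.clog one_mem_slitPlane
      rwa [Complex.log_one] at this
    refine h1.congr' ?_
    filter_upwards [eventually_ge_atTop T] with σ hσ
    rw [hk σ hσ]
    ring

theorem lift_unique (s : ℝ) (M M' : ℝ → ℂ) (hM : ContinuousOn M (Ici s))
    (hM' : ContinuousOn M' (Ici s)) (h : ∀ σ, s ≤ σ → Complex.exp (M σ) = Complex.exp (M' σ))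
    (l : Tendsto M atTop (𝓝 0)) (l' : Tendsto M' atTop (𝓝 0)) : M s = M' s := by
  obtain ⟨k, hk⟩ := log_unique (Ici s) isPreconnected_Ici M M' hM hM' (fun σ hσ => h σ hσ) s
    (mem_Ici.2 le_rfl)
  have h1 : Tendsto (fun σ => M σ - M' σ) atTop (𝓝 (0 - 0)) := l.sub l'
  have h2 : Tendsto (fun σ => M σ - M' σ) atTop (𝓝 (k * (2 * Real.pi * I))) := by
    refine tendsto_const_nhds.congr' ?_
    filter_upwards [eventually_ge_atTop s] with σ hσ
    rw [hk σ hσ]
    ring
  have h3 := tendsto_nhds_unique h1 h2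
  rw [hk s (mem_Ici.2 le_rfl), ← h3]
  simp

/-- a holomorphic logarithm on the complement of a path going to infinity -/
theorem slit_log (s : ℝ) (γ E : ℝ → ℂ) (hγ : ContinuousOn γ (Ici s)) (hE : Continuous E)
    (hlim : Tendsto (fun σ => γ σ * Complex.exp (-(E σ))) atTop (𝓝 1))
    (hinf : Tendsto (fun σ => Complex.exp (-(E σ))) atTop (𝓝 0)) (U : Set ℂ)
    (hU : ∀ z, z ∈ U ↔ ∀ σ, s ≤ σ → z ≠ γ σ) :
    IsOpen U ∧ ∃ L : ℂ → ℂ, DifferentiableOn ℂ L U ∧ ∀ z ∈ U, Complex.exp (L z) = z - γ s := by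
  have ha : ∀ z : ℂ, Tendsto (fun σ => (γ σ - z) * Complex.exp (-(E σ))) atTop (𝓝 1) := by
    intro z
    have h1 := hlim.sub (hinf.const_mul z)
    rw [mul_zero, sub_zero] at h1
    exact h1.congr fun σ => by ring
  have hb : ∀ z ∈ U, ∃ r : ℝ, 0 < r ∧ ∀ σ, s ≤ σ → r ≤ ‖z - γ σ‖ := by
    intro z hz
    rw [hU] at hz
    have h1 : ∀ᶠ σ in atTop, 1 / 2 < ‖(γ σ - z) * Complex.exp (-(E σ))‖ :=
      (ha z).norm.eventually (lt_mem_nhds (by rw [norm_one]; norm_num))
    have h2 : ∀ᶠ σ in atTop, ‖Complex.exp (-(E σ))‖ < 1 / 2 :=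
      hinf.norm.eventually (gt_mem_nhds (by rw [norm_zero]; norm_num))
    obtain ⟨T, hT⟩ := eventually_atTop.1 ((h1.and h2).and (eventually_ge_atTop s))
    have hTs : s ≤ T := (hT T le_rfl).2
    have hc : ContinuousOn (fun σ => ‖z - γ σ‖) (Icc s T) :=
      (continuousOn_const.sub (hγ.mono fun σ hσ => hσ.1)).norm
    obtain ⟨σ0, hσ0, hmin⟩ := (isCompact_Icc (a := s) (b := T)).exists_isMinOn
      ⟨s, left_mem_Icc.2 hTs⟩ hc
    refine ⟨min 1 ‖z - γ σ0‖, lt_min one_pos (norm_pos_iff.2 (sub_ne_zero.2 (hz σ0 hσ0.1))),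
      fun σ hσ => ?_⟩
    rcases le_total σ T with h | h
    · exact (min_le_right _ _).trans (hmin ⟨hσ, h⟩)
    · obtain ⟨⟨h3, h4⟩, -⟩ := hT σ h
      rw [norm_mul, norm_sub_rev] at h3
      refine (min_le_left _ _).trans ?_
      by_contra hcon
      push Not at hcon
      have h5 := mul_le_mul_of_nonneg_right hcon.le (norm_nonneg (Complex.exp (-(E σ))))
      rw [one_mul] at h5
      linarith
  have hball : ∀ z r, (∀ σ, s ≤ σ → r ≤ ‖z - γ σ‖) → ball z r ⊆ U := by
    intro z r h z' hz'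
    rw [hU]
    intro σ hσ he
    rw [mem_ball, dist_comm, dist_eq_norm, he] at hz'
    exact absurd (h σ hσ) (not_le.2 hz')
  have hopen : IsOpen U := by
    rw [Metric.isOpen_iff]
    intro z hz
    obtain ⟨r, hr, h⟩ := hb z hz
    exact ⟨r, hr, hball z r h⟩
  have hl : ∀ z : ℂ, ∃ M : ℝ → ℂ, z ∈ U → ContinuousOn M (Ici s) ∧
      (∀ σ, s ≤ σ → Complex.exp (M σ) = (γ σ - z) * Complex.exp (-(E σ))) ∧
      Tendsto M atTop (𝓝 0) := by
    intro z
    by_cases hz : z ∈ U
    · have hz' := (hU z).1 hz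
      obtain ⟨M, h⟩ := exists_lift s (fun σ => (γ σ - z) * Complex.exp (-(E σ)))
        ((hγ.sub continuousOn_const).mul (by fun_prop)) (fun σ hσ =>
          mul_ne_zero (sub_ne_zero.2 (hz' σ hσ).symm) (Complex.exp_ne_zero _)) (ha z)
      exact ⟨M, fun _ => h⟩
    · exact ⟨fun _ => 0, fun h => absurd h hz⟩
  choose M hM using hl
  refine ⟨hopen, fun z => M z s + E s + Real.pi * I, ?_, ?_⟩
  · intro z0 hz0
    obtain ⟨r, hr, hr'⟩ := hb z0 hz0
    have hne : ∀ σ, s ≤ σ → z0 - γ σ ≠ 0 := by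
      intro σ hσ
      exact norm_pos_iff.1 (lt_of_lt_of_le hr (hr' σ hσ))
    have key : ∀ z ∈ ball z0 r, M z s = M z0 s + Complex.log (1 + (z - z0) / (z0 - γ s)) := by
      intro z hz
      have hzU : z ∈ U := hball z0 r hr' hz
      have hq : ∀ σ, s ≤ σ → ‖(z - z0) / (z0 - γ σ)‖ < 1 := by
        intro σ hσ
        rw [norm_div, div_lt_one (lt_of_lt_of_le hr (hr' σ hσ))]
        rw [mem_ball, dist_eq_norm] at hz
        exact lt_of_lt_of_le hz (hr' σ hσ)
      have hsl : ∀ σ, s ≤ σ → 1 + (z - z0) / (z0 - γ σ) ∈ slitPlane :=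
        fun σ hσ => mem_slitPlane_of_norm_lt_one (hq σ hσ)
      refine lift_unique s (M z) (fun σ => M z0 σ + Complex.log (1 + (z - z0) / (z0 - γ σ)))
        (hM z hzU).1 ?_ ?_ (hM z hzU).2.2 ?_
      · refine (hM z0 hz0).1.add (ContinuousOn.clog ?_ fun σ hσ => hsl σ hσ)
        exact continuousOn_const.add (continuousOn_const.div (continuousOn_const.sub hγ)
          fun σ hσ => hne σ hσ)
      · intro σ hσ
        rw [(hM z hzU).2.1 σ hσ, Complex.exp_add, (hM z0 hz0).2.1 σ hσ,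
          Complex.exp_log (slitPlane_ne_zero (hsl σ hσ))]
        have h1 := hne σ hσ
        have h2 : (γ σ - z0) * (1 + (z - z0) / (z0 - γ σ)) = γ σ - z := by
          field_simp
          ring
        calc (γ σ - z) * Complex.exp (-E σ)
            = ((γ σ - z0) * (1 + (z - z0) / (z0 - γ σ))) * Complex.exp (-E σ) := by rw [h2]
          _ = _ := by ring
      · have h1 : Tendsto (fun σ => (z - z0) / (z0 - γ σ)) atTop (𝓝 0) := by
          have h2 : Tendsto (fun σ => -((z - z0) * Complex.exp (-(E σ))) /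
              ((γ σ - z0) * Complex.exp (-(E σ)))) atTop (𝓝 (-((z - z0) * 0) / 1)) :=
            ((hinf.const_mul (z - z0)).neg).div (ha z0) one_ne_zero
          rw [mul_zero, neg_zero, zero_div] at h2
          refine h2.congr' ?_
          filter_upwards [eventually_ge_atTop s] with σ hσ
          have h3 := hne σ hσ
          have h4 : γ σ - z0 ≠ 0 := by
            intro h
            apply h3
            rw [← neg_sub, h, neg_zero]
          have h5 := Complex.exp_ne_zero (-(E σ))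
          rw [neg_div, mul_div_mul_right _ _ h5, ← div_neg, neg_sub]
        have h2 : Tendsto (fun σ => Complex.log (1 + (z - z0) / (z0 - γ σ))) atTop (𝓝 0) := by
          have h3 := (h1.const_add 1)
          rw [add_zero] at h3
          have h4 := h3.clog one_mem_slitPlane
          rwa [Complex.log_one] at h4
        have h3 := (hM z0 hz0).2.2.add h2
        rwa [add_zero] at h3
    have hd : DifferentiableAt ℂ
        (fun z => M z0 s + Complex.log (1 + (z - z0) / (z0 - γ s)) + E s + Real.pi * I) z0 := by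
      have h1 : DifferentiableAt ℂ (fun z => 1 + (z - z0) / (z0 - γ s)) z0 := by
        fun_prop
      have h2 := h1.clog (by
        rw [sub_self, zero_div, add_zero]
        exact one_mem_slitPlane)
      exact (((differentiableAt_const _).add h2).add (differentiableAt_const _)).add
        (differentiableAt_const _)
    refine DifferentiableAt.differentiableWithinAt (hd.congr_of_eventuallyEq ?_)
    filter_upwards [ball_mem_nhds z0 hr] with z hz
    rw [key z hz]
  · intro z hz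
    rw [Complex.exp_add, Complex.exp_add, (hM z hz).2.1 s le_rfl, Complex.exp_pi_mul_I,
      mul_assoc (γ s - z), ← Complex.exp_add]
    simp

theorem norm_ex (σ t : ℝ) : ‖ex σ t‖ = Real.exp σ := by
  unfold ex
  rw [Complex.norm_exp]
  simp

theorem log_ex (σ t : ℝ) : Real.log ‖ex σ t‖ = σ := by
  rw [norm_ex, Real.log_exp]

theorem cont_ex : Continuous fun p : ℝ × ℝ => ex p.1 p.2 := by
  unfold ex
  fun_prop

theorem ex_pow (d : ℕ) (σ t : ℝ) : (ex σ t) ^ d = ex (d * σ) (d * t) := by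
  unfold ex
  rw [← Complex.exp_nat_mul]
  congr 1
  push_cast
  ring

theorem slit (_ : S_CG) (hB2 : S_BOT2) : S_SLIT := by
  intro d Ψ ψ s θ x hd hB hψ hs hx
  obtain ⟨n, hn⟩ := hx
  have hd1 : (1 : ℝ) < d := by exact_mod_cast (by omega : 1 < d)
  have hd0 : (0 : ℝ) < d := by linarith
  have hdn : d ≠ 0 := by omega
  obtain ⟨hg, hΨc⟩ := hB2 d Ψ ψ hd hB hψ (ex s θ) (by
    rw [norm_ex]
    exact Real.one_lt_exp_iff.2 hs)
  rw [log_ex] at hg
  obtain ⟨c, hc⟩ : ∃ c, c = ψ (ex s θ) := ⟨_, rfl⟩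
  rw [← hc] at hg hΨc ⊢
  have hsd : s / d < s := div_lt_self hs hd1
  have hdom : ∀ σ t, s / d < σ → ex σ t ∈ Dom (green d c 0) := by
    intro σ t h
    show green d c 0 < Real.log ‖ex σ t‖
    rw [log_ex, hg]
    exact h
  have hcont : ContinuousOn (Ψ c) (Dom (green d c 0)) := (hB.diffw c).continuousOn
  have hγ : ContinuousOn (fun σ => Ψ c (ex σ θ)) (Ici s) := by
    refine hcont.comp (Continuous.continuousOn ?_) ?_
    · exact cont_ex.comp (continuous_id.prodMk continuous_const)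
    · intro σ hσ
      exact hdom σ θ (lt_of_lt_of_le hsd hσ)
  have hexp : ∀ σ : ℝ, Complex.exp (-((σ : ℂ) + 2 * Real.pi * θ * I)) = (ex σ θ)⁻¹ := by
    intro σ
    unfold ex
    rw [Complex.exp_neg]
  have hcob : Tendsto (fun σ => ex σ θ) atTop (cobounded ℂ) := by
    rw [← tendsto_norm_atTop_iff_cobounded]
    simp only [norm_ex]
    exact Real.tendsto_exp_atTop
  have hlim : Tendsto (fun σ : ℝ => Ψ c (ex σ θ) *
      Complex.exp (-((σ : ℂ) + 2 * Real.pi * θ * I))) atTop (𝓝 1) := by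
    simp only [hexp, ← div_eq_mul_inv]
    exact (hB.infty c).comp hcob
  have hinf : Tendsto (fun σ : ℝ => Complex.exp (-((σ : ℂ) + 2 * Real.pi * θ * I))) atTop
      (𝓝 0) := by
    simp only [hexp]
    exact tendsto_inv₀_cobounded.comp hcob
  obtain ⟨hopen, L, hL, hLe⟩ := slit_log s (fun σ => Ψ c (ex σ θ))
    (fun σ => (σ : ℂ) + 2 * Real.pi * θ * I) hγ (by fun_prop) hlim hinf (Slit Ψ c s θ)
    (fun z => Iff.rfl)
  refine ⟨hopen, ?_⟩
  have hpU : ∀ σ t, s / d < σ → t ∈ Ioo x (x + 1 / d) →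
      Ψ c (ex (d * σ) (d * t)) ∈ Slit Ψ c s θ := by
    intro σ t hσ ht σ' hσ' he
    have hσ2 : s < d * σ := by
      rw [div_lt_iff₀ hd0] at hσ
      linarith
    have h1 := hB.inj c (hdom _ _ (hsd.trans hσ2)) (hdom _ _ (lt_of_lt_of_le hsd hσ')) he
    unfold ex at h1
    obtain ⟨k, hk⟩ := Complex.exp_eq_exp_iff_exists_int.1 h1
    have h2 := congrArg Complex.im hk
    simp at h2
    have h3 : (d : ℝ) * t = θ + k := by
      have hpi := Real.pi_pos
      have h4 : (2 * Real.pi) * ((d : ℝ) * t) = (2 * Real.pi) * (θ + k) := by linarith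
      exact mul_left_cancel₀ (by positivity) h4
    have h5 : (d : ℝ) * x < d * t := mul_lt_mul_of_pos_left ht.1 hd0
    have h6 : (d : ℝ) * t < d * (x + 1 / d) := mul_lt_mul_of_pos_left ht.2 hd0
    have h7 : (d : ℝ) * (x + 1 / d) = d * x + 1 := by
      field_simp
    rw [h7, hn, h3] at h6
    rw [hn, h3] at h5
    have h8 : (n : ℝ) < k := by linarith
    have h9 : (k : ℝ) < n + 1 := by linarith
    have h10 : n < k := by exact_mod_cast h8
    have h11 : k < n + 1 := by exact_mod_cast h9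
    omega
  have hLe' : ∀ z ∈ Slit Ψ c s θ, Complex.exp (L z) = z - c := by
    intro z hz
    rw [hLe z hz]
    show z - Ψ c (ex s θ) = z - c
    rw [hΨc]
  -- a first branch
  have hg0 : ∀ z ∈ Slit Ψ c s θ, (Complex.exp (L z / d)) ^ d = z - c := by
    intro z hz
    rw [← Complex.exp_nat_mul, mul_div_cancel₀ _ (by exact_mod_cast hdn), hLe' z hz]
  have hq : ∀ σ t, s / d < σ → (Ψ c (ex σ t)) ^ d = Ψ c (ex (d * σ) (d * t)) - c := by
    intro σ t hσ
    have h1 := hB.conj c (ex σ t) (hdom σ t hσ)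
    rw [ex_pow] at h1
    rw [h1]
    show _ = Ψ c (ex σ t) ^ d + c - c
    ring
  have hS : IsPreconnected (Ioi (s / d) ×ˢ Ioo x (x + 1 / d) : Set (ℝ × ℝ)) :=
    isPreconnected_Ioi.prod isPreconnected_Ioo
  have hconst := hS.eqOn_const_of_mapsTo (T := {ω : ℂ | ω ^ d = 1})
    (f := fun p : ℝ × ℝ => Ψ c (ex p.1 p.2) /
      Complex.exp (L (Ψ c (ex (d * p.1) (d * p.2))) / d)) (by
      apply Set.Finite.isDiscrete
      have h1 : {ω : ℂ | ω ^ d = 1} = ((Polynomial.nthRoots d (1 : ℂ)).toFinset : Set ℂ) := by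
        ext ω
        simp [Polynomial.mem_nthRoots (Nat.pos_of_ne_zero hdn)]
      rw [h1]
      exact Finset.finite_toSet _) (by
      refine ContinuousOn.div ?_ ?_ fun p _ => Complex.exp_ne_zero _
      · refine hcont.comp cont_ex.continuousOn ?_
        rintro ⟨σ, t⟩ ⟨h1, -⟩
        exact hdom σ t h1
      · refine Complex.continuous_exp.comp_continuousOn ?_
        refine ContinuousOn.div_const ?_ _
        refine hL.continuousOn.comp (t := Slit Ψ c s θ) ?_ ?_
        · refine hcont.comp ?_ ?_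
          · refine Continuous.continuousOn ?_
            exact cont_ex.comp ((continuous_const.mul continuous_fst).prodMk
              (continuous_const.mul continuous_snd))
          · rintro ⟨σ, t⟩ ⟨h1, -⟩
            refine hdom (d * σ) (d * t) (hsd.trans ?_)
            have h2 : s / d < σ := h1
            rw [div_lt_iff₀ hd0] at h2
            linarith
        · rintro ⟨σ, t⟩ ⟨h1, h2⟩
          exact hpU σ t h1 h2) (by
      rintro ⟨σ, t⟩ ⟨h1, h2⟩
      show (Ψ c (ex σ t) / Complex.exp (L (Ψ c (ex (d * σ) (d * t))) / d)) ^ d = 1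
      have h3 := hpU σ t h1 h2
      rw [div_pow, hg0 _ h3, hq σ t h1, div_self]
      rw [← hLe' _ h3]
      exact Complex.exp_ne_zero _) ⟨1, one_pow d⟩
  obtain ⟨ω, hω, hωe⟩ := hconst
  refine ⟨fun z => ω * Complex.exp (L z / d), ?_, ?_, ?_⟩
  · exact (differentiableOn_const ω).mul ((hL.div_const _).cexp)
  · intro z hz
    show (ω * Complex.exp (L z / d)) ^ d + c = z
    rw [mul_pow, hg0 z hz, show ω ^ d = 1 from hω]
    ring
  · intro σ t hσ ht
    refine ⟨hpU σ t hσ ht, ?_⟩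
    have h1 := hωe (show (σ, t) ∈ Ioi (s / d) ×ˢ Ioo x (x + 1 / d) from ⟨hσ, ht⟩)
    have h2 : Ψ c (ex σ t) / Complex.exp (L (Ψ c (ex (d * σ) (d * t))) / d) = ω := h1
    show ω * Complex.exp (L (Ψ c (ex (d * σ) (d * t))) / d) = Ψ c (ex σ t)
    rw [← h2, div_mul_cancel₀ _ (Complex.exp_ne_zero _)]

end Pool.Agent.Y925.LC.SlitB
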